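import Mathlib

set_option autoImplicit false
set_option linter.unusedSectionVars false
set_option linter.unusedVariables false

/-! # Twisted exactness in `ℂ[t][x]`: reduction of the order of the pole

Let `G ∈ ℂ[t][x]`, `∂_x G / G = h / g`, `∂_t G / G = k / g`. -/

namespace Pool.Agent.Helper748.TP

open Polynomial

/-- the derivative with respect to `t` of a polynomial in `x` with coefficients in `ℂ[t]` -/
noncomputable def dt (p : Polynomial (Polynomial ℂ)) : Polynomial (Polynomial ℂ) :=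
  p.sum fun n a => monomial n (derivative a)

theorem coeff_dt (p : ℂ[X][X]) (n : ℕ) : (dt p).coeff n = derivative (p.coeff n) := by
  rw [dt, Polynomial.sum, finset_sum_coeff]
  simp only [coeff_monomial]
  rw [Finset.sum_ite_eq']
  split_ifs with h
  · rfl
  · rw [notMem_support_iff.1 h, derivative_zero]

@[simp] theorem dt_zero : dt 0 = 0 := by
  ext1 n
  rw [coeff_dt, coeff_zero, derivative_zero]

theorem dt_add (p q : ℂ[X][X]) : dt (p + q) = dt p + dt q := by
  ext1 n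
  simp only [coeff_dt, coeff_add, derivative_add]

theorem dt_sub (p q : ℂ[X][X]) : dt (p - q) = dt p - dt q := by
  ext1 n
  simp only [coeff_dt, coeff_sub, derivative_sub]

theorem dt_C (a : ℂ[X]) : dt (C a) = C (derivative a) := by
  ext1 n
  rw [coeff_dt, coeff_C, coeff_C]
  split_ifs
  · rfl
  · rw [derivative_zero]

theorem dt_mul (p q : ℂ[X][X]) : dt (p * q) = dt p * q + p * dt q := by
  ext1 n
  rw [coeff_dt, coeff_add, coeff_mul, coeff_mul, coeff_mul, derivative_sum,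
    ← Finset.sum_add_distrib]
  refine Finset.sum_congr rfl fun x _ => ?_
  rw [derivative_mul, coeff_dt, coeff_dt]

theorem dt_X : dt (X : ℂ[X][X]) = 0 := by
  ext1 n
  rw [coeff_dt, coeff_X]
  split_ifs
  · rw [derivative_one, coeff_zero]
  · rw [derivative_zero, coeff_zero]

theorem dt_der (p : ℂ[X][X]) : dt (derivative p) = derivative (dt p) := by
  ext1 n
  rw [coeff_dt, coeff_derivative, coeff_derivative, coeff_dt, derivative_mul]
  have : derivative ((n : ℂ[X]) + 1) = 0 := by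
    rw [derivative_add, derivative_natCast, derivative_one, add_zero]
  rw [this, mul_zero, add_zero]

/-- the constants -/
noncomputable def kc (c : ℂ) : ℂ[X][X] := C (C c)

theorem dt_kc (c : ℂ) (p : ℂ[X][X]) : dt (kc c * p) = kc c * dt p := by
  rw [dt_mul, kc, dt_C, derivative_C, C_0, zero_mul, zero_add]

theorem der_kc (c : ℂ) (p : ℂ[X][X]) : derivative (kc c * p) = kc c * derivative p := by
  rw [kc, derivative_C_mul]

theorem kc_add (a b : ℂ) : kc (a + b) = kc a + kc b := by simp [kc]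

theorem kc_mul (a b : ℂ) : kc (a * b) = kc a * kc b := by simp [kc]

theorem kc_one : kc 1 = 1 := by simp [kc]

theorem kc_nat (n : ℕ) : kc (n : ℂ) = (n : ℂ[X][X]) := by simp [kc]

/-- `∂_x G ^ s g ^ (-K) = cx G ^ s g ^ (-K - 1)` -/
noncomputable def cx (g h : ℂ[X][X]) (s : ℂ) (K : ℕ) : ℂ[X][X] :=
  kc s * h - kc K * derivative g

/-- `∂_t G ^ s g ^ (-K) = ct G ^ s g ^ (-K - 1)` -/
noncomputable def ct (g k : ℂ[X][X]) (s : ℂ) (K : ℕ) : ℂ[X][X] :=
  kc s * k - kc K * dt g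

/-- For `w = W / Q` the function `(G ^ s - ∂_t (w G ^ s / g ^ K)) Q ^ 2 g ^ (K + 1) / G ^ s`. -/
noncomputable def NN (g k : ℂ[X][X]) (s : ℂ) (K : ℕ) (Q : ℂ[X]) (W : ℂ[X][X]) : ℂ[X][X] :=
  C Q ^ 2 * g ^ (K + 1) - g * (C Q * dt W - C (derivative Q) * W) - ct g k s K * (C Q * W)

/-- `N G ^ s / g ^ (K + 1)` is the derivative of `u G ^ s / g ^ K` with respect to `x`, where
`u ∈ ℂ(t)[x]` -/
def Ex (g h : ℂ[X][X]) (s : ℂ) (K : ℕ) (N : ℂ[X][X]) : Prop :=
  ∃ (R : ℂ[X]) (U : ℂ[X][X]), R ≠ 0 ∧ C R * N = g * derivative U + cx g h s K * U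

variable {g h k : ℂ[X][X]} {s : ℂ}

theorem cx_succ (K : ℕ) : cx g h s (K + 1) + derivative g = cx g h s K := by
  rw [cx, cx, Nat.cast_succ, kc_add, kc_one]
  ring

theorem ct_succ (K : ℕ) : ct g k s (K + 1) + dt g = ct g k s K := by
  rw [ct, ct, Nat.cast_succ, kc_add, kc_one]
  ring

theorem cx_zero : cx g h s 0 = kc s * h := by
  rw [cx, Nat.cast_zero, kc, kc, C_0, C_0, zero_mul, sub_zero]

theorem ct_zero : ct g k s 0 = kc s * k := by
  rw [ct, Nat.cast_zero, kc, kc, C_0, C_0, zero_mul, sub_zero]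

theorem Ex.sub {K : ℕ} {N N' : ℂ[X][X]} (h1 : Ex g h s K N) (h2 : Ex g h s K N') :
    Ex g h s K (N - N') := by
  obtain ⟨R, U, hR, h1⟩ := h1
  obtain ⟨R', U', hR', h2⟩ := h2
  refine ⟨R * R', C R' * U - C R * U', mul_ne_zero hR hR', ?_⟩
  rw [derivative_sub, derivative_C_mul, derivative_C_mul, C_mul]
  linear_combination C R' * h1 - C R * h2

theorem Ex.of (K : ℕ) (U : ℂ[X][X]) :
    Ex g h s K (g * derivative U + cx g h s K * U) :=
  ⟨1, U, one_ne_zero, by rw [C_1, one_mul]⟩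

theorem Ex.C_mul {K : ℕ} {N : ℂ[X][X]} (h1 : Ex g h s K N) (D : ℂ[X]) :
    Ex g h s K (C D * N) := by
  obtain ⟨R, U, hR, h1⟩ := h1
  refine ⟨R, C D * U, hR, ?_⟩
  rw [derivative_C_mul]
  linear_combination C D * h1

theorem Ex.cancel {K : ℕ} {N : ℂ[X][X]} {D : ℂ[X]} (hD : D ≠ 0) (h1 : Ex g h s K (C D * N)) :
    Ex g h s K N := by
  obtain ⟨R, U, hR, h1⟩ := h1
  refine ⟨R * D, U, mul_ne_zero hR hD, ?_⟩
  rw [Polynomial.C_mul, mul_assoc]
  exact h1

theorem NN_scale (K : ℕ) (D Q : ℂ[X]) (W : ℂ[X][X]) :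
    NN g k s K (D * Q) (C D * W) = C D ^ 2 * NN g k s K Q W := by
  rw [NN, NN, dt_mul, dt_C, derivative_mul, C_mul, C_add, C_mul, C_mul]
  ring

theorem NN_G (K : ℕ) (Q : ℂ[X]) (W : ℂ[X][X]) :
    NN g k s (K + 1) Q (g * W) = g * NN g k s K Q W := by
  rw [NN, NN, dt_mul, ← ct_succ K]
  ring

/-- the change of `w` by a derivative with respect to `x` -/
theorem NN_exact (hi : dt h * g - h * dt g = derivative k * g - k * derivative g)
    (K : ℕ) (Q : ℂ[X]) (W Z : ℂ[X][X]) :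
    NN g k s K Q (W + (g * derivative Z + (cx g h s K + derivative g) * Z)) =
    NN g k s K Q W - (g * derivative (g * (C Q * dt Z - C (derivative Q) * Z) +
      (ct g k s K + dt g) * (C Q * Z)) + cx g h s K *
      (g * (C Q * dt Z - C (derivative Q) * Z) + (ct g k s K + dt g) * (C Q * Z))) := by
  have h2 : ∀ a : ℂ[X], derivative (C a : ℂ[X][X]) = 0 := fun a => derivative_C
  have h3 : ∀ c : ℂ, derivative (kc c) = 0 := fun c => derivative_C
  have h4 : ∀ c : ℂ, dt (kc c) = 0 := fun c => by rw [kc, dt_C, derivative_C, C_0]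
  have e1 : derivative (ct g k s K) = kc s * derivative k - kc K * derivative (dt g) := by
    rw [ct, derivative_sub, der_kc, der_kc]
  have e2 : dt (cx g h s K) = kc s * dt h - kc K * derivative (dt g) := by
    rw [cx, dt_sub, dt_kc, dt_kc, dt_der]
  rw [NN, NN, dt_add, dt_add, dt_mul, dt_mul, dt_add, dt_der, dt_der, e2]
  simp only [derivative_add, derivative_mul, derivative_sub, h2, e1]
  rw [ct, cx]
  linear_combination (-(C Q * Z * kc s)) * hi

/-- Reduction of the order of the pole. -/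
theorem Ex.step {K : ℕ} {N : ℂ[X][X]} {D : ℂ[X]} {α β : ℂ[X][X]} (hD : D ≠ 0)
    (hαβ : C D = α * g + β * cx g h s (K + 1)) (hG : g ≠ 0)
    (h1 : Ex g h s (K + 1) (g * N)) : Ex g h s K N := by
  obtain ⟨R, U, hR, h1⟩ := h1
  have h3 : C D * U = g * (α * U + β * (C R * N - derivative U)) := by
    rw [hαβ]
    linear_combination (-β) * h1
  set U' := α * U + β * (C R * N - derivative U) with hU'
  refine ⟨D * R, U', mul_ne_zero hD hR, ?_⟩
  have h4 : C D * derivative U = derivative g * U' + g * derivative U' := by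
    rw [← derivative_C_mul, h3, derivative_mul]
  have h6 : g * (C (D * R) * N) = g * (g * derivative U' + cx g h s K * U') := by
    rw [Polynomial.C_mul, ← cx_succ K]
    linear_combination C D * h1 + g * h4 + cx g h s (K + 1) * h3
  exact mul_left_cancel₀ hG h6

theorem red_step (hi : dt h * g - h * dt g = derivative k * g - k * derivative g)
    {K : ℕ} {Q : ℂ[X]} {W : ℂ[X][X]} (hG : g ≠ 0)
    (hc : ∀ K : ℕ, ∃ (D : ℂ[X]) (α β : ℂ[X][X]), D ≠ 0 ∧ C D = α * g + β * cx g h s K)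
    (hQ : Q ≠ 0) (h1 : Ex g h s (K + 1) (NN g k s (K + 1) Q W)) :
    ∃ (Q' : ℂ[X]) (W' : ℂ[X][X]), Q' ≠ 0 ∧ Ex g h s K (NN g k s K Q' W') := by
  obtain ⟨D, α, β, hD, hαβ⟩ := hc K
  obtain ⟨D', α', β', hD', hαβ'⟩ := hc (K + 1)
  set Z : ℂ[X][X] := β * W with hZ
  have h2 : C D * W = g * (α * W - derivative Z) + (g * derivative Z +
      (cx g h s (K + 1) + derivative g) * Z) := by
    rw [cx_succ, hαβ, hZ]
    ring
  refine ⟨D * Q, α * W - derivative Z, mul_ne_zero hD hQ, ?_⟩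
  have h3 := h1.C_mul (D ^ 2)
  rw [C_pow, ← NN_scale, h2, NN_exact hi, NN_G] at h3
  refine Ex.step hD' hαβ' hG ?_
  have h4 := h3.sub (Ex.of (g := g) (h := h) (s := s) (K + 1)
    (-(g * (C (D * Q) * dt Z - C (derivative (D * Q)) * Z) +
      (ct g k s (K + 1) + dt g) * (C (D * Q) * Z))))
  refine (congrArg (Ex g h s (K + 1)) ?_).mp h4
  rw [derivative_neg]
  ring

/-- Reduction to `K = 0`. -/
theorem red_all (hi : dt h * g - h * dt g = derivative k * g - k * derivative g)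
    (hG : g ≠ 0)
    (hc : ∀ K : ℕ, ∃ (D : ℂ[X]) (α β : ℂ[X][X]), D ≠ 0 ∧ C D = α * g + β * cx g h s K)
    (K : ℕ) {Q : ℂ[X]} {W : ℂ[X][X]} (hQ : Q ≠ 0) (h1 : Ex g h s K (NN g k s K Q W)) :
    ∃ (Q' : ℂ[X]) (W' : ℂ[X][X]), Q' ≠ 0 ∧ Ex g h s 0 (NN g k s 0 Q' W') := by
  induction K generalizing Q W with
  | zero => exact ⟨Q, W, hQ, h1⟩
  | succ K ih =>
    obtain ⟨Q', W', hQ', h'⟩ := red_step hi hG hc hQ h1
    exact ih hQ' h'

end Pool.Agent.Helper748.TP
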