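import Pool.Agent.helper748_tp.T9

set_option autoImplicit false
set_option linter.unusedSectionVars false
set_option linter.unusedVariables false

/-! # Forms with a tame projection from a point -/

namespace Pool.Agent.Helper748.TP

open MvPolynomial Pool.Agent.Helper748.MC

/-- The linear vector field -/
theorem field_contra {F N g h₀ h₂ : MvPolynomial (Fin 3) ℂ} {d : ℕ} {s : ℂ} (hd : 0 < d)
    (hFh : F.IsHomogeneous d) (hds : (d : ℂ) * s = -3) {W U : Polynomial (Polynomial ℂ)}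
    (h5 : ch g - ch g * dt W - kc s * (ch h₀ * W) =
      ch g * Polynomial.derivative U + kc s * ch h₂ * U)
    (rG : ch F = ch N * ch g) (rt : dt (ch F) = ch N * ch h₀)
    (rx : Polynomial.derivative (ch F) = ch N * ch h₂) {a₀ a₁ a₂ c₀ c₁ c₂ l₀ l₂ : ℂ}
    (hW : W = kc a₀ * Polynomial.C Polynomial.X + kc a₁ + kc a₂ * Polynomial.X +
      Polynomial.C Polynomial.X * (kc l₀ * Polynomial.C Polynomial.X + kc l₂ * Polynomial.X))
    (hU : U = kc c₀ * Polynomial.C Polynomial.X + kc c₁ + kc c₂ * Polynomial.X +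
      Polynomial.X * (kc l₀ * Polynomial.C Polynomial.X + kc l₂ * Polynomial.X))
    (hdiv : dt W + Polynomial.derivative U = kc (a₀ + c₂) +
      3 * (kc l₀ * Polynomial.C Polynomial.X + kc l₂ * Polynomial.X))
    (hsl : ∀ B : Matrix (Fin 3) (Fin 3) ℂ, B.trace = 0 →
      ∑ i, ∑ j, C (B i j) * X j * pderiv i F ≠ F) : False := by
  have hEu : X 0 * pderiv 0 F + X 1 * pderiv 1 F + X 2 * pderiv 2 F =
      C (d : ℂ) * F := by
    have e2 := hFh.sum_X_mul_pderiv
    rw [Fin.sum_univ_three, nsmul_eq_mul] at e2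
    rw [e2, map_natCast]
  have hp : ∀ i, (pderiv i F).IsHomogeneous (d - 1) := fun i => hFh.pderiv
  have key : ∀ {p q : MvPolynomial (Fin 3) ℂ}, p.IsHomogeneous 1 → q.IsHomogeneous (d - 1) →
      (p * q).IsHomogeneous d := fun hp hq => by
    have := hp.mul hq
    rwa [show 1 + (d - 1) = d by omega] at this
  have hΦ : C s * ((C a₀ * X 0 + C a₁ * X 1 + C a₂ * X 2) * pderiv 0 F -
      (C l₀ * X 0 + C l₂ * X 2) * pderiv 1 F +
      (C c₀ * X 0 + C c₁ * X 1 + C c₂ * X 2) * pderiv 2 F) - C (1 - a₀ - c₂) * F = 0 := by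
    refine ch_inj (d := d) ?_ ?_
    · refine IsHomogeneous.sub (IsHomogeneous.C_mul ((IsHomogeneous.sub (key ?_ (hp 0))
        (key ?_ (hp 1))).add (key ?_ (hp 2))) s) (hFh.C_mul _)
      · exact ((isHomogeneous_C_mul_X a₀ 0).add (isHomogeneous_C_mul_X a₁ 1)).add
          (isHomogeneous_C_mul_X a₂ 2)
      · exact (isHomogeneous_C_mul_X l₀ 0).add (isHomogeneous_C_mul_X l₂ 2)
      · exact ((isHomogeneous_C_mul_X c₀ 0).add (isHomogeneous_C_mul_X c₁ 1)).add
          (isHomogeneous_C_mul_X c₂ 2)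
    · have hE := congrArg ch hEu
      have hX0 : ch (X 0) = Polynomial.C Polynomial.X := by simp [ch]
      have hX1 : ch (X 1) = 1 := by simp [ch]
      have hX2 : ch (X 2) = Polynomial.X := by simp [ch]
      simp only [map_add, map_sub, map_mul, ch_C, hX0, hX1, hX2, ch_pderiv0, ch_pderiv2, mul_one,
        one_mul] at hE ⊢
      have h3 : kc s * kc (d : ℂ) = -3 := by
        have k3 := kc_nat 3
        rw [show ((3 : ℕ) : ℂ) = 3 by norm_num, show ((3 : ℕ) : Polynomial (Polynomial ℂ)) = 3 by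
          norm_num] at k3
        rw [← kc_mul, mul_comm, hds, show kc (-3) = -kc 3 by simp only [kc, map_neg], k3]
      have hN : ch F * (1 - (kc (a₀ + c₂) +
          3 * (kc l₀ * Polynomial.C Polynomial.X + kc l₂ * Polynomial.X))) =
          kc s * (dt (ch F) * W + Polynomial.derivative (ch F) * U) := by
        rw [← hdiv, rt, rx, rG]
        linear_combination ch N * h5
      rw [hW, hU] at hN
      simp only [kc_add, map_add, Polynomial.C_add, kc_one] at hN ⊢
      linear_combination (-(kc s * (kc l₀ * Polynomial.C Polynomial.X + kc l₂ * Polynomial.X))) * hE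
        - hN - (kc l₀ * Polynomial.C Polynomial.X + kc l₂ * Polynomial.X) * ch F * h3
  obtain ⟨σ, hσ⟩ : ∃ σ : ℂ, σ = s * (a₀ + c₂) / 3 := ⟨_, rfl⟩
  have hσ' : (d : ℂ) * σ = -(a₀ + c₂) := by
    rw [hσ]
    linear_combination (a₀ + c₂) / 3 * hds
  refine hsl !![s * a₀ - σ, s * a₁, s * a₂; -(s * l₀), -σ, -(s * l₂); s * c₀, s * c₁, s * c₂ - σ]
    ?_ ?_
  · rw [Matrix.trace_fin_three]
    simp
    rw [hσ]
    ring
  · rw [Fin.sum_univ_three]
    simp only [Fin.sum_univ_three]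
    simp only [Matrix.of_apply, Matrix.cons_val', Matrix.cons_val_zero, Matrix.cons_val_one,
      Matrix.cons_val_two, Matrix.head_cons, Matrix.tail_cons, Matrix.cons_val,
      Matrix.cons_val_fin_one, Matrix.vecHead, map_sub, map_mul, map_neg]
    have h6 : (C (d : ℂ) * C σ : MvPolynomial (Fin 3) ℂ) = -(C a₀ + C c₂) := by
      rw [← C_mul, hσ', C_neg, C_add]
    simp only [map_sub, map_one] at hΦ
    linear_combination hΦ - C σ * hEu - F * h6

/-- There are linear coordinates in which the projection of the curve `f = 0` from the point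
`P = (0 : 0 : 1)` is tame, as follows (`P` is allowed to be outside of the curve, `r = d`). Let
`f = N g`, where the form `g` is the product of the different irreducible factors of `f` and `N`
divides the partial derivatives, `∂_i f = N h_i`; let `r` and `ρ ≥ 3` be the degrees of `f` and `g`
with respect to `x₂`, so that `f` has the multiplicity `d - r` at `P`.

* `g` and `∂₂ g` have no common factor in `ℂ(t)[x]`, where `x₀ = t`, `x₁ = 1`, `x₂ = x`;
* all lines `t = t₀` are good (`GoodLine`), and `g = 0` and the line `x₁ = 0` meet in `ρ` different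
  points outside of `P`; for one of them the intersection multiplicity `m` of `f` satisfies
  `3 m / d ≠ 0, 1, 2, …`;
* `3 r / d ≠ ρ, ρ + 1, …`;
* either the tangent cone of `f` at `P` contains at least three different lines, and `3 r / d ≠ 2`;
  or there is no linear vector field `θ = ∑ B_ij x_j ∂_i` of trace `0` with `θ f = f`. The latter
  holds in particular if the curve has only finitely many linear automorphisms.

See `SimpleProjection.tame` (in `Pool.Agent.helper748_tp.T11`) for explicit members of the class. -/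
def TameProjection (d : ℕ) (f : MvPolynomial (Fin 3) ℂ) : Prop :=
  ∃ (A : Matrix (Fin 3) (Fin 3) ℂ) (N g h₀ h₁ h₂ : MvPolynomial (Fin 3) ℂ) (ρ r δ : ℕ),
    0 < d ∧ A.det ≠ 0 ∧ lin A f = N * g ∧ pderiv 0 (lin A f) = N * h₀ ∧
    pderiv 1 (lin A f) = N * h₁ ∧ pderiv 2 (lin A f) = N * h₂ ∧
    (∃ e : ℕ, N ∣ g ^ e) ∧ g.IsHomogeneous (δ + 1) ∧ h₀.IsHomogeneous δ ∧ h₂.IsHomogeneous δ ∧
    3 ≤ ρ ∧ (ch (lin A f)).natDegree = r ∧ (ch g).natDegree = ρ ∧
    (∃ (D : Polynomial ℂ) (α β : Polynomial (Polynomial ℂ)), D ≠ 0 ∧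
      Polynomial.C D = α * ch g + β * Polynomial.derivative (ch g)) ∧
    (∀ t₀ : ℂ, GoodLine (-3 / d) ρ r (ch (lin A f)) (ch g) (ch h₂) (ch h₀) t₀) ∧
    (chInf g).Separable ∧ (chInf g).natDegree = ρ ∧ (chInf (lin A f)).natDegree = r ∧
    (∃ c : ℂ, ∀ i : ℕ, (i : ℂ) + -3 / d * (chInf (lin A f)).rootMultiplicity c ≠ 0) ∧
    (∀ j : ℕ, (j : ℂ) + -3 / d * r + ρ ≠ 0) ∧
    ((3 ≤ ((ch (lin A f)).coeff r).roots.toFinset.card ∧ (2 : ℂ) + -3 / d * r ≠ 0) ∨
      ∀ B : Matrix (Fin 3) (Fin 3) ℂ, B.trace = 0 →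
        ∑ i, ∑ j, C (B i j) * X j * pderiv i (lin A f) ≠ lin A f)

theorem TameProjection.pos {d : ℕ} {f : MvPolynomial (Fin 3) ℂ} (h : TameProjection d f) :
    0 < d := by
  obtain ⟨A, N, g, h₀, h₁, h₂, ρ, r, δ, hd, -⟩ := h
  exact hd

theorem not_exact_tame {d : ℕ} {f : MvPolynomial (Fin 3) ℂ}
    (hf : f.IsHomogeneous d) (h : TameProjection d f) : f ≠ 0 ∧ ¬ Exact d f (-3 / d) := by
  obtain ⟨A, N, g, h₀, h₁, h₂, ρ, r, δ, hd, hA, hFN, hF0, hF1, hF2, ⟨e, V0, hV0⟩, hg, hh0, hh2,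
    hρ3, hr, hρ, hsq, hl, hsep, hinf, hinfr, hc, hs2, hend⟩ := h
  set F := lin A f with hF
  have hFh : F.IsHomogeneous d := lin_homog A hf
  have hFi : chInf F ≠ 0 := by
    obtain ⟨c, hc⟩ := hc
    intro h0
    apply hc 0
    rw [h0, Polynomial.rootMultiplicity_zero]
    simp
  have hG0 : ch F ≠ 0 := by
    intro h0
    exact hFi (by rw [ch_inj hFh h0, map_zero])
  refine ⟨?_, fun hE => ?_⟩
  · rintro rfl
    rw [map_zero] at hF
    exact hG0 (by rw [hF, map_zero])
  have hdc : (d : ℂ) ≠ 0 := Nat.cast_ne_zero.2 (by omega)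
  have hds : (d : ℂ) * (-3 / d) = -3 := by field_simp
  obtain ⟨K, P, Q, -, -, hEq⟩ := exact_two hFh hds (exact_lin hE A (isUnit_iff_ne_zero.2 hA))
  set s : ℂ := -3 / d with hsdef
  have hs : s ≠ 0 := by
    intro h0
    rw [h0, mul_zero] at hds
    norm_num at hds
  have hN0 : N ≠ 0 := by
    rintro rfl
    apply hG0
    rw [hFN, zero_mul, map_zero]
  have hNc : ch N ≠ 0 := by
    intro h0
    apply hG0
    rw [hFN, map_mul, h0, zero_mul]
  have hE : X 0 * h₀ + X 1 * h₁ + X 2 * h₂ = (d : MvPolynomial (Fin 3) ℂ) * g := by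
    have e2 := hFh.sum_X_mul_pderiv
    rw [Fin.sum_univ_three, nsmul_eq_mul, hF0, hF1, hF2, hFN] at e2
    refine mul_left_cancel₀ hN0 ?_
    linear_combination e2
  have hEi : chInf h₀ = Polynomial.C (d : ℂ) * chInf g - Polynomial.X * chInf h₂ := by
    have e2 := congrArg chInf hE
    have i0 : chInf (X 0) = 1 := by simp [chInf]
    have i1 : chInf (X 1) = 0 := by simp [chInf]
    have i2 : chInf (X 2) = Polynomial.X := by simp [chInf]
    rw [map_add, map_add, map_mul, map_mul, map_mul, map_mul, i0, i1, i2, map_natCast] at e2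
    have e3 : (Polynomial.C (d : ℂ)) = ((d : ℕ) : Polynomial ℂ) := by simp
    rw [e3]
    linear_combination e2
  have hss : ∀ K m : ℕ, s * ((m : ℂ) + 1) - K ≠ 0 := by
    intro K m h0
    have h3 : (K : ℂ) * d + 3 * (m + 1) = 0 := by
      linear_combination (-(d : ℂ)) * h0 + ((m : ℂ) + 1) * hds
    have h4 : ((K * d + 3 * (m + 1) : ℕ) : ℂ) = 0 := by push_cast; linear_combination h3
    have h5 : K * d + 3 * (m + 1) = 0 := by exact_mod_cast h4
    omega
  have h1 := congrArg ch hEq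
  have hX1 : ch (X 1) = 1 := by simp [ch]
  simp only [map_add, map_mul, map_pow, hX1, one_mul, ch_pderiv0, ch_pderiv2, ch_C] at h1
  obtain ⟨g1, g2⟩ := th_ch hg
  obtain ⟨k1, k2⟩ := th_ch hh0
  obtain ⟨x1, x2⟩ := th_ch hh2
  rw [hEi] at k2
  have rG : ch F = ch N * ch g := by rw [hFN, map_mul]
  have rt : dt (ch F) = ch N * ch h₀ := by rw [← ch_pderiv0, hF0, map_mul]
  have rx : Polynomial.derivative (ch F) = ch N * ch h₂ := by rw [← ch_pderiv2, hF2, map_mul]
  have hv : ch g ^ e = ch N * ch V0 := by rw [← map_pow, hV0, map_mul]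
  have hdi : chInf g ∣ chInf F := ⟨chInf N, by rw [hFN, map_mul]; ring⟩
  have hGi : Polynomial.derivative (chInf F) * chInf g = chInf F * chInf h₂ := by
    rw [← chInf_pderiv2, hF2, hFN, map_mul, map_mul]
    ring
  obtain ⟨⟨l1, l2⟩, ⟨D, α, β, hD, hαβ⟩, W, U, hW, hU, h5⟩ := core hNc hG0 rG rt rx hv hρ3 hr hρ
    hsq hl hsep hinf hinfr hc hs2 hs hds hss g1 g2 x1 x2 k1 k2 hdi hGi h1
  rcases hend with ⟨hroots, h2r⟩ | hsl
  · exact no_linear hG0 (by rw [rt, rG]; ring) hr hρ hρ3 l1 l2 hs h2r hD hαβ hroots hW hU h5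
  · obtain ⟨c, hc⟩ := hc
    have hNZ : NZ s (chInf g) (chInf h₂) := nz_gh hFi hsep.ne_zero hGi hc
    have h6 := top_two (d := d) (δ := δ + 1) (by omega) hds g1
      (by rw [Nat.add_sub_cancel]; exact x1) (by rw [Nat.add_sub_cancel]; exact k1)
      g2 (by rw [Nat.add_sub_cancel]; exact x2) (by rw [Nat.add_sub_cancel]; exact k2) hNZ hW hU
      (by rw [← mul_assoc (kc s) (ch h₂) U]; exact h5)
    obtain ⟨a₀, a₁, a₂, c₀, c₁, c₂, l₀, l₂, e1, e2, e3⟩ := linear_form hW hU h6
    exact field_contra hd hFh hds h5 rG rt rx e1 e2 e3 hsl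

end Pool.Agent.Helper748.TP
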