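import Pool.Agent.helper748_tp.T10

set_option autoImplicit false
set_option linter.unusedSectionVars false
set_option linter.unusedVariables false

/-! # Curves with one singular point and a simple discriminant -/

namespace Pool.Agent.Helper748.TP

section

open Polynomial

theorem num0 {d : ℕ} (hd : 3 < d) {x y : ℕ} (h : 0 < x + y) : (x : ℂ) + -3 / d * y + y ≠ 0 := by
  intro h0
  obtain ⟨e, rfl⟩ : ∃ e, d = e + 4 := ⟨d - 4, by omega⟩
  have hdc : ((e : ℂ) + 4) ≠ 0 := by
    have : ((e + 4 : ℕ) : ℂ) ≠ 0 := Nat.cast_ne_zero.2 (by omega)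
    push_cast at this
    exact this
  have h1 : ((x * (e + 4) + y * (e + 1) : ℕ) : ℂ) = 0 := by
    push_cast at h0 ⊢
    field_simp at h0
    linear_combination h0
  have h2 : x * (e + 4) + y * (e + 1) = 0 := by exact_mod_cast h1
  have h3 : x * (e + 4) = 0 := by omega
  have h4 : y * (e + 1) = 0 := by omega
  rcases Nat.mul_eq_zero.1 h3 with h3 | h3
  · rcases Nat.mul_eq_zero.1 h4 with h4 | h4 <;> omega
  · omega

theorem num1 {d : ℕ} (hd : 3 < d) (i : ℕ) : (i : ℂ) + -3 / d * (1 : ℕ) ≠ 0 := by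
  intro h0
  have hdc : (d : ℂ) ≠ 0 := Nat.cast_ne_zero.2 (by omega)
  have h1 : ((i * d : ℕ) : ℂ) = (3 : ℕ) := by
    push_cast at h0 ⊢
    field_simp at h0
    linear_combination h0
  have h2 : i * d = 3 := by exact_mod_cast h1
  rcases Nat.eq_zero_or_pos i with h | h
  · rw [h] at h2
    omega
  · nlinarith

theorem num2 {d i p μ : ℕ} (hd : 3 < d) (hi : i < μ) (hp : 0 < p) {e : ℂ} (he : e ≠ 0) {q : ℂ}
    (hq : q * μ = e) : (p : ℂ) * e ≠ q * (i + -3 / d * μ) := by
  intro h0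
  have hdc : (d : ℂ) ≠ 0 := Nat.cast_ne_zero.2 (by omega)
  have h1 : e * ((p * μ : ℂ) - (i + -3 / d * μ)) = 0 := by
    linear_combination μ * h0 + (i + -3 / d * μ) * hq
  have h2 := (mul_eq_zero.1 h1).resolve_left he
  have h3 : ((p * μ * d + 3 * μ : ℕ) : ℂ) = ((i * d : ℕ) : ℂ) := by
    push_cast
    field_simp at h2
    linear_combination h2
  have h4 : p * μ * d + 3 * μ = i * d := by exact_mod_cast h3
  have h5 : i * d < p * μ * d := Nat.mul_lt_mul_of_pos_right (by nlinarith) (by omega)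
  omega

theorem sep_root {p : ℂ[X]} (hp : p.Separable) (h : 0 < p.natDegree) :
    ∃ c, p.rootMultiplicity c = 1 := by
  obtain ⟨c, hc⟩ := IsAlgClosed.exists_root p (by
    intro h0
    rw [degree_eq_natDegree hp.ne_zero] at h0
    have : p.natDegree = 0 := by exact_mod_cast h0
    omega)
  exact ⟨c, le_antisymm (rootMultiplicity_le_one_of_separable hp c)
    ((rootMultiplicity_pos hp.ne_zero).2 hc)⟩

theorem exp_at {g0 α0 β0 : ℂ[X]} (hg0 : g0 ≠ 0) (hA : α0 * g0 + β0 * derivative g0 = 0) (c : ℂ)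
    (hμ : 0 < g0.rootMultiplicity c) :
    β0.eval c = 0 ∧ (derivative β0).eval c * (g0.rootMultiplicity c : ℂ) = -α0.eval c := by
  obtain ⟨G1, hG1, hH⟩ := at_pt (g := g0) (h := derivative g0) hg0 (by ring) c
  set μ := g0.rootMultiplicity c with hμd
  have hμ0 : (μ : ℂ) ≠ 0 := Nat.cast_ne_zero.2 hμ.ne'
  have h1 : α0 * ((X - C c) * G1) + β0 * (C (μ : ℂ) * G1 + (X - C c) * derivative G1) = 0 := by
    refine mul_left_cancel₀ hg0 ?_
    linear_combination ((X - C c) * G1) * hA + β0 * hH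
  have h2 := congrArg (eval c) h1
  have h3 := congrArg (fun p => eval c (derivative p)) h1
  simp only [derivative_add, derivative_mul, derivative_sub, derivative_X, derivative_C,
    eval_add, eval_mul, eval_sub, eval_X, eval_C, sub_self, zero_mul, mul_zero, zero_add, add_zero,
    sub_zero, one_mul, eval_one, derivative_zero, eval_zero] at h2 h3
  have h4 : β0.eval c = 0 := by
    rcases mul_eq_zero.1 h2 with h | h
    · exact h
    · exact absurd h (mul_ne_zero hμ0 hG1)
  refine ⟨h4, ?_⟩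
  rw [h4] at h3
  refine mul_right_cancel₀ hG1 ?_
  linear_combination h3

theorem good_simple {G : ℂ[X][X]} {d r : ℕ} (hd : 3 < d) (hr3 : 3 ≤ r) (hr : G.natDegree = r)
    {D : ℂ[X]} {α β : ℂ[X][X]} (hD : D ≠ 0) (hαβ : C D = α * G + β * derivative G) {t₀ : ℂ}
    (hL : (G.coeff r).eval t₀ ≠ 0) (h1 : D.rootMultiplicity t₀ ≤ 1)
    (h2 : ∃ c, (evt t₀ G).rootMultiplicity c = 1) :
    GoodLine (-3 / d) r r G G (derivative G) (dt G) t₀ := by
  have hdeg : (evt t₀ G).natDegree = r := by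
    refine le_antisymm ((natDegree_evt_le t₀ G).trans hr.le) (le_natDegree_of_ne_zero ?_)
    rwa [coeff_evt]
  have hg0 : evt t₀ G ≠ 0 := by
    intro h0
    rw [h0, natDegree_zero] at hdeg
    omega
  have hev := congrArg (evt t₀) hαβ
  rw [map_add, map_mul, map_mul, evt_C, evt_der] at hev
  refine ⟨?_, ?_⟩
  · obtain ⟨c, hc⟩ := h2
    exact ⟨c, fun i => by rw [hc]; exact num1 hd i⟩
  by_cases hD0 : D.eval t₀ = 0
  · right; right
    refine ⟨hdeg, ?_⟩
    obtain ⟨e, he, he'⟩ := exists_eq_pow_rootMultiplicity_mul_and_not_dvd D hD t₀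
    have hm1 : D.rootMultiplicity t₀ = 1 := le_antisymm h1 ((rootMultiplicity_pos hD).2 hD0)
    rw [hm1, pow_one] at he
    rw [dvd_iff_isRoot, IsRoot] at he'
    refine ⟨e, α * dt G, -(β * dt G), he', ?_, ?_⟩
    · have h3 : tau t₀ * e = D := he.symm
      rw [h3, hαβ]
      ring
    · intro c i p hi0 hi hp
      have hlt : 1 < (evt t₀ G).rootMultiplicity c := by omega
      obtain ⟨q1, q2⟩ := (one_lt_rootMultiplicity_iff_isRoot hg0).1 hlt
      rw [IsRoot] at q1 q2
      rw [hD0, C_0] at hev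
      obtain ⟨b0, b1⟩ := exp_at hg0 hev.symm c (by omega)
      have hDe : (derivative D).eval t₀ = e.eval t₀ := by
        rw [he]
        simp only [derivative_mul, derivative_sub, derivative_X, derivative_C, eval_add, eval_mul,
          eval_sub, eval_X, eval_C, sub_self, zero_mul, add_zero, sub_zero, eval_one, one_mul,
          eval_zero]
      have h5 := congrArg (fun p => (evt t₀ (dt p)).eval c) hαβ
      simp only [dt_C, dt_add, dt_mul, map_add, map_mul, evt_C, evt_der, eval_add, eval_mul, eval_C,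
        q1, q2, b0, mul_zero, zero_mul, zero_add, add_zero] at h5
      rw [hDe] at h5
      refine num2 hd hi hp he' ?_
      simp only [map_neg, map_mul, derivative_neg, derivative_mul, eval_neg, eval_add, eval_mul, b0,
        zero_mul, add_zero]
      linear_combination (-(evt t₀ (dt G)).eval c) * b1 - h5
  · left
    refine ⟨⟨C (D.eval t₀)⁻¹ * evt t₀ α, C (D.eval t₀)⁻¹ * evt t₀ β, ?_⟩, hdeg⟩
    have e : (C (D.eval t₀)⁻¹ * C (D.eval t₀) : ℂ[X]) = 1 := by
      rw [← Polynomial.C_mul, inv_mul_cancel₀ hD0, C_1]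
    linear_combination (-C (D.eval t₀)⁻¹) * hev + e

theorem good_tangent {G : ℂ[X][X]} {d r : ℕ} (hd : 3 < d) (hr3 : 3 ≤ r) {t₀ : ℂ}
    (hsep : (evt t₀ G).Separable) (hdeg : (evt t₀ G).natDegree = r - 1) :
    GoodLine (-3 / d) r r G G (derivative G) (dt G) t₀ := by
  refine ⟨?_, Or.inr (Or.inl ⟨hsep, hdeg, ?_, ?_⟩)⟩
  · obtain ⟨c, hc⟩ := sep_root hsep (by omega)
    exact ⟨c, fun i => by rw [hc]; exact num1 hd i⟩
  · intro j
    rw [hdeg]
    exact num0 hd (by omega)
  · intro m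
    rw [hdeg]
    have h1 := num0 hd (x := m + 1) (y := (G.coeff r).rootMultiplicity t₀ * (r - 1)) (by omega)
    intro h0
    apply h1
    have h2 : ((r - 1 : ℕ) : ℂ) = (r : ℂ) - 1 := by
      rw [Nat.cast_sub (by omega), Nat.cast_one]
    rw [Nat.cast_mul, h2]
    rw [h2] at h0
    linear_combination h0

end

open MvPolynomial Pool.Agent.Helper748.MC

/-- The curve `f = 0` is reduced, has the point `P = (0 : 0 : 1)` of multiplicity `d - r`, with at least three
different tangent lines, and is smooth at the other points; the discriminant of the projection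
from `P` is simple; at the tangent lines of `P` the curve meets the line in `r - 1` different points
outside of `P`. -/
def SimpleProjection (d : ℕ) (f : MvPolynomial (Fin 3) ℂ) : Prop :=
  ∃ (A : Matrix (Fin 3) (Fin 3) ℂ) (r : ℕ) (D : Polynomial ℂ) (α β : Polynomial (Polynomial ℂ)),
    3 < d ∧ A.det ≠ 0 ∧ 3 ≤ r ∧ (ch (lin A f)).natDegree = r ∧ D ≠ 0 ∧
    Polynomial.C D = α * ch (lin A f) + β * Polynomial.derivative (ch (lin A f)) ∧
    (∀ t₀ : ℂ, ((ch (lin A f)).coeff r).eval t₀ ≠ 0 → D.rootMultiplicity t₀ ≤ 1 ∧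
      ∃ c, (evt t₀ (ch (lin A f))).rootMultiplicity c = 1) ∧
    (∀ t₀ : ℂ, ((ch (lin A f)).coeff r).eval t₀ = 0 →
      (evt t₀ (ch (lin A f))).Separable ∧ (evt t₀ (ch (lin A f))).natDegree = r - 1) ∧
    (chInf (lin A f)).Separable ∧ (chInf (lin A f)).natDegree = r ∧
    3 ≤ ((ch (lin A f)).coeff r).roots.toFinset.card ∧ 3 * r ≠ 2 * d

theorem SimpleProjection.tame {d : ℕ} {f : MvPolynomial (Fin 3) ℂ} (hf : f.IsHomogeneous d)
    (h : SimpleProjection d f) : TameProjection d f := by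
  obtain ⟨A, r, D, α, β, hd, hA, hr3, hr, hD, hαβ, h1, h2, h3, h4, h5, h6⟩ := h
  have hFh : (lin A f).IsHomogeneous d := lin_homog A hf
  have hdd : d - 1 + 1 = d := by omega
  have hdc : (d : ℂ) ≠ 0 := Nat.cast_ne_zero.2 (by omega)
  refine ⟨A, 1, lin A f, pderiv 0 (lin A f), pderiv 1 (lin A f), pderiv 2 (lin A f), r, r, d - 1,
    by omega, hA, by rw [one_mul], by rw [one_mul], by rw [one_mul], by rw [one_mul],
    ⟨0, one_dvd _⟩, by rw [hdd]; exact hFh, hFh.pderiv, hFh.pderiv, hr3, hr, hr,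
    ⟨D, α, β, hD, hαβ⟩, ?_, h3, h4, h4, ?_, ?_, Or.inl ⟨h5, ?_⟩⟩
  · intro t₀
    rw [ch_pderiv0, ch_pderiv2]
    by_cases h0 : ((ch (lin A f)).coeff r).eval t₀ = 0
    · exact good_tangent hd hr3 (h2 t₀ h0).1 (h2 t₀ h0).2
    · exact good_simple hd hr3 hr hD hαβ h0 (h1 t₀ h0).1 (h1 t₀ h0).2
  · obtain ⟨c, hc⟩ := sep_root h3 (by omega)
    exact ⟨c, fun i => by rw [hc]; exact num1 hd i⟩
  · intro j
    exact num0 hd (by omega)
  · intro h0
    apply h6
    have h7 : ((3 * r : ℕ) : ℂ) = ((2 * d : ℕ) : ℂ) := by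
      push_cast
      field_simp at h0
      linear_combination -h0
    exact_mod_cast h7

end Pool.Agent.Helper748.TP
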