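import Pool.Agent.helper748_tp.T1

set_option autoImplicit false
set_option linter.unusedSectionVars false
set_option linter.unusedVariables false

/-! # Reduction of the degree in `x`; the restriction to the lines `t = t₀` -/

namespace Pool.Agent.Helper748.TP

open Polynomial

variable {g h k : ℂ[X][X]} {s : ℂ}

section Deg

theorem cast_pred {j : ℕ} (hj : 0 < j) : ((j - 1 : ℕ) : ℂ[X]) + 1 = C (j : ℂ) := by
  obtain ⟨k, rfl⟩ : ∃ k, j = k + 1 := ⟨j - 1, by omega⟩
  rw [Nat.add_sub_cancel]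
  simp

theorem deg_exactB {ρ r : ℕ} (hρ : g.natDegree = ρ) (hρ1 : 1 ≤ ρ) (hh : h.natDegree ≤ ρ - 1)
    (hhc : h.coeff (ρ - 1) = C (r : ℂ) * g.coeff ρ) {Z : ℂ[X][X]} {j : ℕ}
    (hj : Z.natDegree ≤ j) (σ σ' : ℂ) :
    (g * derivative Z + (kc σ * h + kc σ' * derivative g) * Z).coeff (ρ - 1 + j) =
      g.coeff ρ * Z.coeff j * C (j + σ * r + σ' * ρ) := by
  have e1 : (g * derivative Z).coeff (ρ - 1 + j) = g.coeff ρ * (Z.coeff j * C (j : ℂ)) := by
    rcases Nat.eq_zero_or_pos j with h0 | h0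
    · have : derivative Z = 0 := by
        rw [h0] at hj
        exact derivative_of_natDegree_zero (Nat.le_zero.1 hj)
      rw [this, mul_zero, coeff_zero, h0, Nat.cast_zero, C_0, mul_zero, mul_zero]
    · rw [show ρ - 1 + j = ρ + (j - 1) by omega, coeff_mul_add_eq_of_natDegree_le hρ.le
        ((natDegree_derivative_le Z).trans (by omega)), coeff_derivative,
        show j - 1 + 1 = j by omega, cast_pred h0]
  have e2 : (derivative g * Z).coeff (ρ - 1 + j) = g.coeff ρ * C (ρ : ℂ) * Z.coeff j := by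
    rw [coeff_mul_add_eq_of_natDegree_le ((natDegree_derivative_le g).trans (by omega)) hj,
      coeff_derivative, show ρ - 1 + 1 = ρ by omega, cast_pred (by omega : 0 < ρ)]
  have e3 : (h * Z).coeff (ρ - 1 + j) = C (r : ℂ) * g.coeff ρ * Z.coeff j := by
    rw [coeff_mul_add_eq_of_natDegree_le hh hj, hhc]
  have e4 : (kc σ * h + kc σ' * derivative g) * Z = kc σ * (h * Z) +
      kc σ' * (derivative g * Z) := by ring
  rw [e4, coeff_add, coeff_add, e1, kc, kc, coeff_C_mul, coeff_C_mul, e2, e3]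
  simp only [C_add, C_mul]
  ring

/-- Reduction of the degree in `x`. -/
theorem red_deg (hi : dt h * g - h * dt g = derivative k * g - k * derivative g)
    {ρ r : ℕ} (hρ : g.natDegree = ρ) (hρ2 : 2 ≤ ρ) (hh : h.natDegree ≤ ρ - 1)
    (hhc : h.coeff (ρ - 1) = C (r : ℂ) * g.coeff ρ)
    (hs : ∀ j : ℕ, (j : ℂ) + s * r + ρ ≠ 0) (n : ℕ) {Q : ℂ[X]} {W : ℂ[X][X]} (hQ : Q ≠ 0)
    (hW : W.natDegree ≤ n) (h1 : Ex g h s 0 (NN g k s 0 Q W)) :
    ∃ (Q' : ℂ[X]) (W' : ℂ[X][X]), Q' ≠ 0 ∧ W'.natDegree ≤ ρ - 2 ∧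
      Ex g h s 0 (NN g k s 0 Q' W') := by
  have hG : g ≠ 0 := by
    rintro rfl
    rw [natDegree_zero] at hρ
    omega
  induction n generalizing Q W with
  | zero => exact ⟨Q, W, hQ, by omega, h1⟩
  | succ n ih =>
    by_cases hn : W.natDegree ≤ ρ - 2
    · exact ⟨Q, W, hQ, hn, h1⟩
    · by_cases hn' : W.natDegree ≤ n
      · exact ih hQ hn' h1
      · have hn2 : W.natDegree = n + 1 := by omega
        obtain ⟨j, hj⟩ : ∃ j, n + 1 = ρ - 1 + j := ⟨n + 1 - (ρ - 1), by omega⟩
        set A : ℂ[X] := g.coeff ρ with hA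
        have hA0 : A ≠ 0 := by
          rw [hA, ← hρ, coeff_natDegree]
          exact leadingCoeff_ne_zero.2 hG
        set c : ℂ := (j : ℂ) + s * r + ρ with hc
        set Z : ℂ[X][X] := kc c⁻¹ * (C (W.coeff (n + 1)) * X ^ j) with hZ
        have hZd : Z.natDegree ≤ j := by
          rw [hZ, kc, ← mul_assoc, ← C_mul]
          exact natDegree_C_mul_X_pow_le _ _
        have hZc : Z.coeff j = C c⁻¹ * W.coeff (n + 1) := by
          rw [hZ, kc, ← mul_assoc, ← C_mul, coeff_C_mul_X_pow, if_pos rfl]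
        set Y : ℂ[X][X] := g * derivative Z + (cx g h s 0 + derivative g) * Z with hY
        have hY' : Y = g * derivative Z + (kc s * h + kc 1 * derivative g) * Z := by
          rw [hY, cx_zero, kc_one, one_mul]
        have hYd : Y.natDegree ≤ n + 1 := by
          rw [hY, cx_zero]
          refine natDegree_add_le_of_degree_le ?_ ?_
          · rcases Nat.eq_zero_or_pos j with h0 | h0
            · have : derivative Z = 0 := by
                rw [h0] at hZd
                exact derivative_of_natDegree_zero (Nat.le_zero.1 hZd)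
              rw [this, mul_zero, natDegree_zero]
              omega
            · refine natDegree_mul_le.trans ?_
              have := natDegree_derivative_le Z
              omega
          · refine natDegree_mul_le.trans ?_
            have h2 : (kc s * h + derivative g).natDegree ≤ ρ - 1 := by
              refine natDegree_add_le_of_degree_le ?_ ?_
              · rw [kc]
                exact (natDegree_C_mul_le _ _).trans hh
              · exact (natDegree_derivative_le g).trans (by omega)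
            omega
        have hYc : Y.coeff (n + 1) = A * W.coeff (n + 1) := by
          rw [hY', hj, deg_exactB hρ (by omega) hh hhc hZd, ← hj, hZc, one_mul, ← hc]
          have e : (C c⁻¹ * C c : ℂ[X]) = 1 := by rw [← C_mul, inv_mul_cancel₀ (hs j), C_1]
          linear_combination (A * W.coeff (n + 1)) * e
        have h1' : NN g k s 0 (A * Q) (C A * W) = NN g k s 0 (A * Q) ((C A * W - Y) + Y) := by
          rw [sub_add_cancel]
        have h2 := h1.C_mul (A ^ 2)
        rw [C_pow, ← NN_scale, h1', hY, NN_exact hi, ← hY] at h2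
        have h4 := h2.sub (Ex.of (g := g) (h := h) (s := s) 0
          (-(g * (C (A * Q) * dt Z - C (derivative (A * Q)) * Z) +
            (ct g k s 0 + dt g) * (C (A * Q) * Z))))
        have h5 : Ex g h s 0 (NN g k s 0 (A * Q) (C A * W - Y)) := by
          refine (congrArg (Ex g h s 0) ?_).mp h4
          rw [derivative_neg]
          ring
        refine ih (mul_ne_zero hA0 hQ) ?_ h5
        rw [natDegree_le_iff_coeff_eq_zero]
        intro N hN
        rw [coeff_sub, coeff_C_mul]
        rcases (show n + 1 ≤ N from hN).eq_or_lt with h6 | h6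
        · rw [← h6, hYc, sub_self]
        · rw [coeff_eq_zero_of_natDegree_lt (lt_of_le_of_lt hW h6),
            coeff_eq_zero_of_natDegree_lt (lt_of_le_of_lt hYd h6), mul_zero, sub_zero]

end Deg

section Eval

/-- the restriction to the line `t = t₀` -/
noncomputable def evt (t₀ : ℂ) : ℂ[X][X] →+* ℂ[X] := mapRingHom (evalRingHom t₀)

theorem evt_C (t₀ : ℂ) (a : ℂ[X]) : evt t₀ (C a) = C (a.eval t₀) := by
  rw [evt, coe_mapRingHom, map_C, coe_evalRingHom]

theorem evt_kc (t₀ c : ℂ) : evt t₀ (kc c) = C c := by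
  rw [kc, evt_C, eval_C]

theorem evt_der (t₀ : ℂ) (p : ℂ[X][X]) : evt t₀ (derivative p) = derivative (evt t₀ p) := by
  rw [evt, coe_mapRingHom, derivative_map]

theorem coeff_evt (t₀ : ℂ) (p : ℂ[X][X]) (n : ℕ) : (evt t₀ p).coeff n = (p.coeff n).eval t₀ := by
  rw [evt, coe_mapRingHom, coeff_map, coe_evalRingHom]

theorem natDegree_evt_le (t₀ : ℂ) (p : ℂ[X][X]) : (evt t₀ p).natDegree ≤ p.natDegree := by
  rw [evt, coe_mapRingHom]
  exact natDegree_map_le

/-- the function `t - t₀` -/
noncomputable def tau (t₀ : ℂ) : ℂ[X] := X - C t₀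

theorem tau_ne (t₀ : ℂ) : tau t₀ ≠ 0 := X_sub_C_ne_zero t₀

theorem tau_dvd {t₀ : ℂ} {p : ℂ[X][X]} (h : evt t₀ p = 0) : C (tau t₀) ∣ p := by
  rw [C_dvd_iff_dvd_coeff]
  intro i
  rw [tau, dvd_iff_isRoot, IsRoot, ← coeff_evt, h, coeff_zero]

theorem evt_tau (t₀ : ℂ) : evt t₀ (C (tau t₀)) = 0 := by
  rw [evt_C, tau, eval_sub, eval_X, eval_C, sub_self, C_0]

/-- There are no solutions of `(G ^ s Y)' = 0` on the line, where `G' / G = h / g`. -/
def NZ (s : ℂ) (g h : ℂ[X]) : Prop :=
  ∀ Y : ℂ[X], g * derivative Y + C s * (h * Y) = 0 → Y = 0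

theorem dvd_tau_pow {t₀ : ℂ} (hNZ : NZ s (evt t₀ g) (evt t₀ h)) (m : ℕ) {U : ℂ[X][X]}
    (h1 : C (tau t₀) ^ m ∣ g * derivative U + kc s * h * U) : C (tau t₀) ^ m ∣ U := by
  induction m generalizing U with
  | zero => rw [pow_zero]; exact one_dvd _
  | succ m ih =>
    have h2 : evt t₀ U = 0 := by
      apply hNZ
      obtain ⟨V, hV⟩ := (dvd_pow_self (C (tau t₀)) (Nat.succ_ne_zero m)).trans h1
      have := congrArg (evt t₀) hV
      rw [map_mul (evt t₀) (C (tau t₀)), evt_tau, zero_mul] at this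
      simpa only [map_add, map_mul, evt_der, evt_kc, mul_assoc] using this
    obtain ⟨U', rfl⟩ := tau_dvd h2
    rw [pow_succ', derivative_C_mul] at h1
    have h3 : C (tau t₀) * C (tau t₀) ^ m ∣
        C (tau t₀) * (g * derivative U' + kc s * h * U') := by
      convert h1 using 1
      ring
    have h4 := (mul_dvd_mul_iff_left (C_ne_zero.2 (tau_ne t₀))).1 h3
    rw [pow_succ']
    exact mul_dvd_mul_left _ (ih h4)

/-- Under `NZ` there are no denominators. -/
theorem Ex.poly (hNZ : ∀ t₀, NZ s (evt t₀ g) (evt t₀ h)) {N : ℂ[X][X]} (h1 : Ex g h s 0 N) :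
    ∃ U : ℂ[X][X], N = g * derivative U + kc s * h * U := by
  obtain ⟨R, U, hR, h1⟩ := h1
  rw [cx_zero] at h1
  obtain ⟨n, hn⟩ : ∃ n, R.natDegree = n := ⟨_, rfl⟩
  induction n generalizing R U with
  | zero =>
    rw [eq_C_of_natDegree_eq_zero hn] at h1 hR
    set c := R.coeff 0 with hc
    have hc0 : c ≠ 0 := fun h0 => hR (by rw [h0, C_0])
    have h2 : kc c⁻¹ * kc c = 1 := by rw [← kc_mul, inv_mul_cancel₀ hc0, kc_one]
    refine ⟨kc c⁻¹ * U, ?_⟩
    rw [der_kc]
    change kc c * N = _ at h1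
    linear_combination kc c⁻¹ * h1 - N * h2
  | succ n ih =>
    obtain ⟨t₀, ht⟩ : ∃ t₀, R.IsRoot t₀ := by
      refine IsAlgClosed.exists_root R ?_
      rw [degree_eq_natDegree hR, hn]
      exact_mod_cast Nat.succ_ne_zero n
    have h2 : evt t₀ U = 0 := by
      apply hNZ t₀
      have := congrArg (evt t₀) h1
      rw [map_mul (evt t₀) (C R), evt_C, IsRoot.def.1 ht, C_0, zero_mul] at this
      simpa only [map_add, map_mul, evt_der, evt_kc, mul_assoc] using this.symm
    obtain ⟨U', rfl⟩ := tau_dvd h2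
    obtain ⟨R', rfl⟩ := dvd_iff_isRoot.2 ht
    have hR' : R' ≠ 0 := right_ne_zero_of_mul hR
    refine ih R' U' hR' ?_ ?_
    · rw [derivative_C_mul, Polynomial.C_mul] at h1
      refine mul_left_cancel₀ (C_ne_zero.2 (tau_ne t₀)) ?_
      change C (tau t₀) * C R' * N = _ at h1
      linear_combination h1
    · rw [natDegree_mul (X_sub_C_ne_zero t₀) hR', natDegree_X_sub_C] at hn
      omega

end Eval

end Pool.Agent.Helper748.TP
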