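import Pool.Agent.helper748_tp.T2

set_option autoImplicit false
set_option linter.unusedSectionVars false
set_option linter.unusedVariables false

/-! # The equations on one line -/

namespace Pool.Agent.Helper748.TP

open Polynomial

theorem lead_h {A : Type} [CommRing A] [IsDomain A] {G g h : A[X]} (hG : G ≠ 0)
    (h1 : derivative G * g = G * h) {ρ R : ℕ} (hρ : g.natDegree = ρ) (hρ1 : 1 ≤ ρ)
    (hR : G.natDegree = R) (hR1 : 1 ≤ R) :
    h.natDegree ≤ ρ - 1 ∧ h.coeff (ρ - 1) = (R : A) * g.coeff ρ := by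
  have hh : h.natDegree ≤ ρ - 1 := by
    by_cases h0 : h = 0
    · rw [h0, natDegree_zero]; exact Nat.zero_le _
    · have h2 := congrArg natDegree h1
      rw [natDegree_mul hG h0, hR] at h2
      have h3 : (derivative G * g).natDegree ≤ (R - 1) + ρ :=
        natDegree_mul_le.trans (add_le_add ((natDegree_derivative_le G).trans (by omega)) hρ.le)
      omega
  refine ⟨hh, ?_⟩
  have h2 := congrArg (fun p : A[X] => p.coeff (R + (ρ - 1))) h1
  rw [coeff_mul_add_eq_of_natDegree_le hR.le hh, show R + (ρ - 1) = (R - 1) + ρ by omega,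
    coeff_mul_add_eq_of_natDegree_le ((natDegree_derivative_le G).trans (by omega)) hρ.le,
    coeff_derivative, show R - 1 + 1 = R by omega] at h2
  have h3 : G.coeff R ≠ 0 := by
    rw [← hR, coeff_natDegree]
    exact leadingCoeff_ne_zero.2 hG
  have h4 : ((R - 1 : ℕ) : A) + 1 = R := by
    rw [← Nat.cast_succ, Nat.succ_eq_add_one, show R - 1 + 1 = R by omega]
  rw [h4] at h2
  refine mul_left_cancel₀ h3 ?_
  rw [← h2]
  ring

section Line

variable {g h G : ℂ[X]} {s : ℂ}

theorem X_mul_der_pow (c : ℂ) (k : ℕ) :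
    (X - C c) * derivative ((X - C c) ^ k) = C (k : ℂ) * (X - C c) ^ k := by
  rcases Nat.eq_zero_or_pos k with h | h
  · rw [h, pow_zero, derivative_one, mul_zero, Nat.cast_zero, C_0, zero_mul]
  · obtain ⟨j, rfl⟩ : ∃ j, k = j + 1 := ⟨k - 1, by omega⟩
    rw [derivative_pow, Nat.add_sub_cancel, derivative_sub, derivative_X, derivative_C, pow_succ]
    ring

theorem ord_eq (c : ℂ) (k i : ℕ) (g1 η : ℂ[X]) :
    (X - C c) * (((X - C c) ^ k * g1) * derivative ((X - C c) ^ i * η) +
      C s * (derivative ((X - C c) ^ k * g1) * ((X - C c) ^ i * η))) =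
    (X - C c) ^ (k + i) * (C (i + s * k) * (g1 * η) + (X - C c) *
      (g1 * derivative η + C s * (derivative g1 * η))) := by
  have h1 := X_mul_der_pow c k
  have h2 := X_mul_der_pow c i
  rw [derivative_mul, derivative_mul, C_add, C_mul, pow_add]
  linear_combination ((X - C c) ^ k * g1 * η) * h2 + C s * g1 * (X - C c) ^ i * η * h1

theorem nz_of {c : ℂ} (hG : G ≠ 0) (h : ∀ i : ℕ, (i : ℂ) + s * G.rootMultiplicity c ≠ 0)
    {Y : ℂ[X]} (hY : G * derivative Y + C s * (derivative G * Y) = 0) : Y = 0 := by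
  by_contra hY0
  obtain ⟨g1, hg1, hg1'⟩ := exists_eq_pow_rootMultiplicity_mul_and_not_dvd G hG c
  obtain ⟨η, hη, hη'⟩ := exists_eq_pow_rootMultiplicity_mul_and_not_dvd Y hY0 c
  set k := G.rootMultiplicity c with hk
  set i := Y.rootMultiplicity c with hi
  have h1 := ord_eq (s := s) c k i g1 η
  rw [← hg1, ← hη, hY, mul_zero] at h1
  have h2 := (mul_eq_zero.1 h1.symm).resolve_left (pow_ne_zero _ (X_sub_C_ne_zero c))
  have h3 := congrArg (eval c) h2
  rw [eval_add, eval_mul, eval_mul, eval_C, eval_mul (p := X - C c), eval_sub, eval_X, eval_C,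
    sub_self, zero_mul, add_zero, eval_zero] at h3
  rw [dvd_iff_isRoot, IsRoot] at hg1' hη'
  exact mul_ne_zero (h i) (mul_ne_zero hg1' hη') h3

theorem nz_gh {c : ℂ} (hG : G ≠ 0) (hg : g ≠ 0) (hGh : derivative G * g = G * h)
    (hc : ∀ i : ℕ, (i : ℂ) + s * G.rootMultiplicity c ≠ 0) : NZ s g h := by
  intro Y hY
  refine nz_of hG hc (mul_left_cancel₀ hg ?_)
  linear_combination G * hY + C s * Y * hGh

/-- the behaviour at a point -/
theorem at_pt (hG : G ≠ 0) (hGh : derivative G * g = G * h) (c : ℂ) :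
    ∃ G1 : ℂ[X], G1.eval c ≠ 0 ∧ (C (G.rootMultiplicity c : ℂ) * G1 +
      (X - C c) * derivative G1) * g = (X - C c) * (G1 * h) := by
  obtain ⟨G1, hG1, hG1'⟩ := exists_eq_pow_rootMultiplicity_mul_and_not_dvd G hG c
  set M := G.rootMultiplicity c with hM
  rw [dvd_iff_isRoot, IsRoot] at hG1'
  refine ⟨G1, hG1', mul_left_cancel₀ (pow_ne_zero M (X_sub_C_ne_zero c)) ?_⟩
  have h1 := X_mul_der_pow c M
  have h2 := hGh
  rw [hG1, derivative_mul] at h2
  linear_combination (X - C c) * h2 - G1 * g * h1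

theorem ev_zero (c : ℂ) (q : ℂ[X]) : ((X - C c) * q).eval c = 0 := by
  rw [eval_mul, eval_sub, eval_X, eval_C, sub_self, zero_mul]

theorem cop_gh (hg : g.Separable) (hgG : g ∣ G) (hG : G ≠ 0) (hGh : derivative G * g = G * h) :
    IsCoprime g h := by
  rw [isCoprime_iff_aeval_ne_zero_of_isAlgClosed ℂ ℂ]
  intro c
  by_contra hcon
  push Not at hcon
  obtain ⟨h1, h2⟩ := hcon
  rw [coe_aeval_eq_eval] at h1 h2
  obtain ⟨G1, hG1, hH⟩ := at_pt hG hGh c
  obtain ⟨g1, hg1⟩ := dvd_iff_isRoot.2 (show g.IsRoot c from h1)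
  have hM : 0 < G.rootMultiplicity c := by
    rw [rootMultiplicity_pos hG]
    obtain ⟨z, hz⟩ := hgG
    rw [hz, IsRoot, eval_mul, h1, zero_mul]
  have h3 : g1.eval c ≠ 0 := by
    intro h0
    obtain ⟨a, b, hab⟩ := hg
    have h4 := congrArg (eval c) hab
    rw [eval_add, eval_mul, eval_mul, h1, hg1, derivative_mul, derivative_sub, derivative_X,
      derivative_C, eval_add, ev_zero, sub_zero, one_mul, h0, eval_one] at h4
    simp at h4
  have h4 : (C (G.rootMultiplicity c : ℂ) * G1 + (X - C c) * derivative G1) * g1 = G1 * h := by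
    refine mul_left_cancel₀ (X_sub_C_ne_zero c) ?_
    have := hH
    conv_lhs at this => rw [hg1]
    linear_combination this
  have h5 := congrArg (eval c) h4
  rw [eval_mul, eval_add, eval_mul, eval_C, ev_zero, add_zero, eval_mul, h2, mul_zero] at h5
  exact mul_ne_zero (mul_ne_zero (Nat.cast_ne_zero.2 hM.ne') hG1) h3 h5

theorem deg_exact {ρ R : ℕ} (hρ : g.natDegree = ρ) (hρ1 : 1 ≤ ρ) (hh : h.natDegree ≤ ρ - 1)
    (hhc : h.coeff (ρ - 1) = (R : ℂ) * g.coeff ρ) {ζ : ℂ[X]} {j : ℕ}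
    (hj : ζ.natDegree ≤ j) (σ : ℂ) :
    (g * derivative ζ + (C σ * h + derivative g) * ζ).coeff (ρ - 1 + j) =
      g.coeff ρ * ζ.coeff j * (j + σ * R + ρ) := by
  have e1 : (g * derivative ζ).coeff (ρ - 1 + j) = g.coeff ρ * (ζ.coeff j * j) := by
    rcases Nat.eq_zero_or_pos j with h0 | h0
    · have : derivative ζ = 0 := by
        rw [h0] at hj
        exact derivative_of_natDegree_zero (Nat.le_zero.1 hj)
      rw [this, mul_zero, coeff_zero, h0, Nat.cast_zero, mul_zero, mul_zero]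
    · rw [show ρ - 1 + j = ρ + (j - 1) by omega, coeff_mul_add_eq_of_natDegree_le hρ.le
        ((natDegree_derivative_le ζ).trans (by omega)), coeff_derivative,
        show j - 1 + 1 = j by omega]
      congr 2
      rw [Nat.cast_sub h0]
      push_cast
      ring
  have e2 : (derivative g * ζ).coeff (ρ - 1 + j) = g.coeff ρ * ρ * ζ.coeff j := by
    rw [coeff_mul_add_eq_of_natDegree_le ((natDegree_derivative_le g).trans (by omega)) hj,
      coeff_derivative, show ρ - 1 + 1 = ρ by omega]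
    congr 2
    rw [Nat.cast_sub hρ1]
    push_cast
    ring
  have e3 : (h * ζ).coeff (ρ - 1 + j) = (R : ℂ) * g.coeff ρ * ζ.coeff j := by
    rw [coeff_mul_add_eq_of_natDegree_le hh hj, hhc]
  have e4 : (C σ * h + derivative g) * ζ = C σ * (h * ζ) + derivative g * ζ := by ring
  rw [e4, coeff_add, coeff_add, e1, coeff_C_mul, e2, e3]
  ring

theorem zero_of_exact {ρ R : ℕ} (hg0 : g ≠ 0) (hρ : g.natDegree = ρ) (hρ1 : 2 ≤ ρ)
    (hh : h.natDegree ≤ ρ - 1) (hhc : h.coeff (ρ - 1) = (R : ℂ) * g.coeff ρ)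
    (hs1 : ∀ j : ℕ, (j : ℂ) + s * R + ρ ≠ 0) {w ζ : ℂ[X]} {κ : ℂ} (hκ : κ ≠ 0)
    (hw : w.natDegree ≤ ρ - 2)
    (h1 : C κ * w = g * derivative ζ + (C s * h + derivative g) * ζ) : w = 0 := by
  by_cases h0 : ζ = 0
  · rw [h0, derivative_zero, mul_zero, mul_zero, add_zero] at h1
    exact (mul_eq_zero.1 h1).resolve_left (C_ne_zero.2 hκ)
  · exfalso
    have h2 := deg_exact (g := g) hρ (by omega) hh hhc (le_refl ζ.natDegree) s
    rw [← h1, coeff_C_mul, coeff_eq_zero_of_natDegree_lt (by omega), mul_zero] at h2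
    have h3 : g.coeff ρ ≠ 0 := by
      rw [← hρ, coeff_natDegree]
      exact leadingCoeff_ne_zero.2 hg0
    have h4 : ζ.coeff ζ.natDegree ≠ 0 := by
      rw [coeff_natDegree]
      exact leadingCoeff_ne_zero.2 h0
    exact mul_ne_zero (mul_ne_zero h3 h4) (hs1 _) h2.symm

theorem sep_dvd (hg0 : g ≠ 0) (hg : IsCoprime g h) (hs : s ≠ 0) {w Y : ℂ[X]} (κ : ℂ)
    (h1 : C κ * (g * w) = g * derivative Y + C s * (h * Y)) :
    ∃ ζ : ℂ[X], Y = g * ζ ∧ C κ * w = g * derivative ζ + (C s * h + derivative g) * ζ := by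
  have h2 : g ∣ h * Y := by
    refine ⟨C s⁻¹ * (C κ * w - derivative Y), ?_⟩
    have h3 : C s⁻¹ * C s = (1 : ℂ[X]) := by rw [← C_mul, inv_mul_cancel₀ hs, C_1]
    linear_combination (-(h * Y)) * h3 - C s⁻¹ * h1
  obtain ⟨ζ, rfl⟩ := hg.dvd_of_dvd_mul_left h2
  refine ⟨ζ, rfl, ?_⟩
  rw [derivative_mul] at h1
  refine mul_left_cancel₀ hg0 ?_
  linear_combination h1

/-- a fibre with a logarithmic vector field -/
theorem line_log {ρ R : ℕ} (hg0 : g ≠ 0) (hG : G ≠ 0) (hgG : g ∣ G)
    (hGh : derivative G * g = G * h) (hρ : g.natDegree = ρ) (hρ1 : 2 ≤ ρ)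
    (hh : h.natDegree ≤ ρ - 1) (hhc : h.coeff (ρ - 1) = (R : ℂ) * g.coeff ρ) (hs : s ≠ 0)
    (hs1 : ∀ j : ℕ, (j : ℂ) + s * R + ρ ≠ 0) {w Y a b z : ℂ[X]} {p : ℕ} {q₀ e₀ : ℂ}
    (hp : 0 < p) (hq : q₀ ≠ 0)
    (hab : b * h = a * g)
    (hres : ∀ (c : ℂ) (i p : ℕ), 0 < i → i < g.rootMultiplicity c → 0 < p →
      (p : ℂ) * e₀ ≠ (derivative b).eval c * (i + s * G.rootMultiplicity c))
    (hw : w.natDegree ≤ ρ - 2)
    (h1 : C (p * q₀) * (g * w) = g * derivative Y + C s * (h * Y))
    (h2 : C e₀ * Y - C q₀ * (b * w) = g * z) : w = 0 := by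
  have h3 : C (p * q₀) * (b * w) = b * derivative Y + C s * (a * Y) := by
    refine mul_left_cancel₀ hg0 ?_
    linear_combination b * h1 + C s * Y * hab
  have h4 : C (p * e₀) * Y - (b * derivative Y + C s * (a * Y)) = g * (C (p : ℂ) * z) := by
    rw [← h3, C_mul, C_mul]
    linear_combination C (p : ℂ) * h2
  have hgY : g ∣ Y := by
    by_cases hY0 : Y = 0
    · rw [hY0]; exact dvd_zero g
    rw [IsAlgClosed.dvd_iff_roots_le_roots hg0 hY0]
    classical
    rw [Multiset.le_iff_count]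
    intro c
    rw [count_roots, count_roots]
    by_contra hlt
    rw [not_le] at hlt
    obtain ⟨G1, hG1, hH⟩ := at_pt hG hGh c
    obtain ⟨g1, hg1, hg1'⟩ := exists_eq_pow_rootMultiplicity_mul_and_not_dvd g hg0 c
    obtain ⟨η, hη, hη'⟩ := exists_eq_pow_rootMultiplicity_mul_and_not_dvd Y hY0 c
    have hres' := hres c
    have hM : 0 < G.rootMultiplicity c := by
      rw [rootMultiplicity_pos hG]
      have h5 : g.IsRoot c := (rootMultiplicity_pos hg0).1 (by omega)
      obtain ⟨z, hz⟩ := hgG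
      rw [hz, IsRoot, eval_mul, h5.eq_zero, zero_mul]
    set M := G.rootMultiplicity c with hMdef
    set k := g.rootMultiplicity c with hk
    set i := Y.rootMultiplicity c with hi
    have hXc : (X - C c : ℂ[X]) ≠ 0 := X_sub_C_ne_zero c
    have hi1 := X_mul_der_pow c i
    rw [dvd_iff_isRoot, IsRoot] at hg1' hη'
    have hg1z : g1 ≠ 0 := by
      rintro rfl
      exact hg1' eval_zero
    set H1 : ℂ[X] := C (M : ℂ) * G1 + (X - C c) * derivative G1 with hH1
    have hH1c : H1.eval c = M * G1.eval c := by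
      rw [hH1, eval_add, eval_mul, eval_C, ev_zero, add_zero]
    have hM0 : (M : ℂ) ≠ 0 := Nat.cast_ne_zero.2 hM.ne'
    -- `b` vanishes at `c`
    have e1 : b * H1 = a * G1 * (X - C c) := by
      refine mul_left_cancel₀ hg0 ?_
      linear_combination b * hH + (X - C c) * G1 * hab
    have e2 : b.eval c = 0 := by
      have := congrArg (eval c) e1
      rw [eval_mul, hH1c, mul_comm (a * G1), ev_zero] at this
      exact (mul_eq_zero.1 this).resolve_right (mul_ne_zero hM0 hG1)
    obtain ⟨b1, hb1⟩ := dvd_iff_isRoot.2 (show b.IsRoot c from e2)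
    have e3 : b1 * H1 = a * G1 := by
      refine mul_left_cancel₀ hXc ?_
      rw [← mul_assoc, ← hb1, e1]
      ring
    have e4 : b1.eval c * M = a.eval c := by
      have := congrArg (eval c) e3
      rw [eval_mul, hH1c, eval_mul] at this
      refine mul_right_cancel₀ hG1 ?_
      rw [← this]; ring
    have e5 : (derivative b).eval c = b1.eval c := by
      rw [hb1, derivative_mul, derivative_sub, derivative_X, derivative_C, eval_add, ev_zero]
      simp
    -- `i ≥ 1`
    have hi0 : 0 < i := by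
      by_contra h0
      have h0' : i = 0 := by omega
      have h5 : C s * (Y * H1) = (X - C c) * (G1 * (C (p * q₀) * w - derivative Y)) := by
        refine mul_left_cancel₀ hg0 ?_
        linear_combination C s * Y * hH - (X - C c) * G1 * h1
      have h6 := congrArg (eval c) h5
      rw [ev_zero, eval_mul, eval_C, eval_mul, hH1c] at h6
      have h7 : Y.eval c ≠ 0 := by
        rw [hη, h0', pow_zero, one_mul]
        exact hη'
      exact mul_ne_zero hs (mul_ne_zero h7 (mul_ne_zero hM0 hG1)) h6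
    refine hres' i p hi0 hlt hp ?_
    -- the leading coefficient
    obtain ⟨n, hn⟩ : ∃ n, k = i + (n + 1) := ⟨k - i - 1, by omega⟩
    have e6 : (X - C c) ^ i * (C (p * e₀) * η - (b1 * (C (i : ℂ) * η + (X - C c) * derivative η) +
        C s * (a * η))) = (X - C c) ^ i * ((X - C c) * ((X - C c) ^ n * g1 * (C (p : ℂ) * z))) := by
      have h9 := h4
      rw [hη, derivative_mul, hb1] at h9
      have h10 : g = (X - C c) ^ i * ((X - C c) * ((X - C c) ^ n * g1)) := by
        rw [hg1, hn, pow_add, pow_succ]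
        ring
      rw [h10] at h9
      linear_combination h9 + (b1 * η) * hi1
    have e7 := congrArg (eval c) (mul_left_cancel₀ (pow_ne_zero _ hXc) e6)
    rw [ev_zero, eval_sub, eval_mul, eval_C, eval_add, eval_mul, eval_add, eval_mul, eval_C,
      ev_zero, add_zero, eval_mul, eval_C, eval_mul] at e7
    rw [e5]
    refine mul_right_cancel₀ hη' ?_
    rw [← e4] at e7
    linear_combination e7
  obtain ⟨ζ, rfl⟩ := hgY
  have h5 : C (p * q₀) * w = g * derivative ζ + (C s * h + derivative g) * ζ := by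
    refine mul_left_cancel₀ hg0 ?_
    rw [derivative_mul] at h1
    linear_combination h1
  exact zero_of_exact hg0 hρ hρ1 hh hhc hs1
    (mul_ne_zero (Nat.cast_ne_zero.2 hp.ne') hq) hw h5

end Line

end Pool.Agent.Helper748.TP
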