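import Pool.Agent.helper748_tp.T3

set_option autoImplicit false
set_option linter.unusedSectionVars false
set_option linter.unusedVariables false

/-! # Removal of the denominators at one line -/

namespace Pool.Agent.Helper748.TP

open Polynomial

variable {G g h k : ℂ[X][X]} {s : ℂ}

theorem natDegree_dt_le (p : ℂ[X][X]) : (dt p).natDegree ≤ p.natDegree := by
  rw [natDegree_le_iff_coeff_eq_zero]
  intro N hN
  rw [coeff_dt, coeff_eq_zero_of_natDegree_lt hN, derivative_zero]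

/-- the leading coefficient of `k` -/
theorem lead_k (hG : G ≠ 0) (h1 : dt G * g = G * k) {ρ r : ℕ} (hρ : g.natDegree = ρ)
    (hr : G.natDegree = r) :
    k.natDegree ≤ ρ ∧ derivative (G.coeff r) * g.coeff ρ = G.coeff r * k.coeff ρ := by
  have hd := (natDegree_dt_le G).trans hr.le
  have hk : k.natDegree ≤ ρ := by
    by_cases h0 : k = 0
    · rw [h0, natDegree_zero]; exact Nat.zero_le _
    · have h2 := congrArg natDegree h1
      rw [natDegree_mul hG h0, hr] at h2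
      have h3 : (dt G * g).natDegree ≤ r + ρ := natDegree_mul_le.trans (add_le_add hd hρ.le)
      omega
  refine ⟨hk, ?_⟩
  have h2 := congrArg (fun p : ℂ[X][X] => p.coeff (r + ρ)) h1
  rw [coeff_mul_add_eq_of_natDegree_le hd hρ.le, coeff_mul_add_eq_of_natDegree_le hr.le hk,
    coeff_dt] at h2
  exact h2

theorem deg_exact0 {ρ r : ℕ} (hρ : g.natDegree = ρ) (hρ1 : 1 ≤ ρ) (hh : h.natDegree ≤ ρ - 1)
    (hhc : h.coeff (ρ - 1) = C (r : ℂ) * g.coeff ρ) {Z : ℂ[X][X]} {j : ℕ}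
    (hj : Z.natDegree ≤ j) :
    (g * derivative Z + kc s * h * Z).coeff (ρ - 1 + j) =
      g.coeff ρ * Z.coeff j * C (j + s * r) := by
  have h1 := deg_exactB hρ hρ1 hh hhc hj s 0
  have h2 : kc 0 = 0 := by rw [kc, C_0, C_0]
  rw [h2, zero_mul, add_zero, zero_mul, add_zero] at h1
  exact h1

theorem NN0 (Q : ℂ[X]) (W : ℂ[X][X]) : NN g k s 0 Q W =
    C Q ^ 2 * g - g * (C Q * dt W - C (derivative Q) * W) - kc s * k * (C Q * W) := by
  rw [NN, ct_zero, zero_add, pow_one]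

theorem dvd_of_prim {t₀ : ℂ} (hg : evt t₀ g ≠ 0) (n : ℕ) {Z : ℂ[X][X]}
    (h1 : C (tau t₀) ^ n ∣ g * Z) : C (tau t₀) ^ n ∣ Z := by
  induction n generalizing Z with
  | zero => rw [pow_zero]; exact one_dvd _
  | succ n ih =>
    have h2 : evt t₀ Z = 0 := by
      obtain ⟨V, hV⟩ := (dvd_pow_self (C (tau t₀)) (Nat.succ_ne_zero n)).trans h1
      have := congrArg (evt t₀) hV
      rw [map_mul, map_mul, evt_tau, zero_mul] at this
      exact (mul_eq_zero.1 this).resolve_left hg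
    obtain ⟨Z', rfl⟩ := tau_dvd h2
    have h3 : C (tau t₀) * C (tau t₀) ^ n ∣ C (tau t₀) * (g * Z') := by
      rw [pow_succ'] at h1
      convert h1 using 1
      ring
    rw [pow_succ']
    exact mul_dvd_mul_left _ (ih ((mul_dvd_mul_iff_left (C_ne_zero.2 (tau_ne t₀))).1 h3))

/-- `N / (t - t₀) ^ m` for `Q = (t - t₀) ^ (m + 1) Q₁` -/
noncomputable def N1 (g k : ℂ[X][X]) (s t₀ : ℂ) (m : ℕ) (Q1 : ℂ[X]) (W : ℂ[X][X]) : ℂ[X][X] :=
  C (tau t₀ ^ (m + 2) * Q1 ^ 2) * g - g * (C (tau t₀ * Q1) * dt W -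
    C (((m + 1 : ℕ) : ℂ[X]) * Q1 + tau t₀ * derivative Q1) * W) -
    kc s * (k * (C (tau t₀ * Q1) * W))

theorem NN_local (t₀ : ℂ) (m : ℕ) (Q1 : ℂ[X]) (W : ℂ[X][X]) :
    NN g k s 0 (tau t₀ ^ (m + 1) * Q1) W = C (tau t₀) ^ m * N1 g k s t₀ m Q1 W := by
  have h1 : derivative (tau t₀ ^ (m + 1) * Q1) =
      tau t₀ ^ m * (((m + 1 : ℕ) : ℂ[X]) * Q1 + tau t₀ * derivative Q1) := by
    rw [derivative_mul, derivative_pow, Nat.add_sub_cancel, tau, derivative_sub, derivative_X,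
      derivative_C, C_eq_natCast]
    ring
  rw [NN0, N1, h1]
  simp only [Polynomial.C_mul, C_pow]
  ring

theorem local_form {t₀ : ℂ} (hNZ : NZ s (evt t₀ g) (evt t₀ h)) {m : ℕ} {Q1 : ℂ[X]}
    {W U : ℂ[X][X]}
    (h1 : NN g k s 0 (tau t₀ ^ (m + 1) * Q1) W = g * derivative U + kc s * h * U) :
    ∃ U1, N1 g k s t₀ m Q1 W = g * derivative U1 + kc s * h * U1 := by
  rw [NN_local] at h1
  obtain ⟨U1, rfl⟩ := dvd_tau_pow hNZ m (U := U) ⟨_, h1.symm⟩
  refine ⟨U1, mul_left_cancel₀ (pow_ne_zero m (C_ne_zero.2 (tau_ne t₀))) ?_⟩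
  rw [h1, ← C_pow, derivative_C_mul]
  ring

theorem evt_N1 (t₀ : ℂ) (m : ℕ) (Q1 : ℂ[X]) (W : ℂ[X][X]) :
    evt t₀ (N1 g k s t₀ m Q1 W) = C (((m + 1 : ℕ) : ℂ) * Q1.eval t₀) * (evt t₀ g * evt t₀ W) := by
  have h0 : (tau t₀).eval t₀ = 0 := by rw [tau, eval_sub, eval_X, eval_C, sub_self]
  rw [N1]
  simp only [map_sub, map_mul, evt_C, eval_mul, eval_pow, eval_add, h0, eval_natCast,
    zero_mul, C_0, zero_pow (Nat.succ_ne_zero _), add_zero, mul_zero]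
  ring

theorem evt_exact {t₀ : ℂ} {U : ℂ[X][X]} : evt t₀ (g * derivative U + kc s * h * U) =
    evt t₀ g * derivative (evt t₀ U) + C s * (evt t₀ h * evt t₀ U) := by
  simp only [map_add, map_mul, evt_der, evt_kc, mul_assoc]

theorem natDegree_N1_le {ρ : ℕ} (hρ : g.natDegree = ρ) (hρ2 : 2 ≤ ρ) (hk : k.natDegree ≤ ρ)
    (t₀ : ℂ) (m : ℕ) (Q1 : ℂ[X]) {W : ℂ[X][X]} (hW : W.natDegree ≤ ρ - 2) :
    (N1 g k s t₀ m Q1 W).natDegree ≤ 2 * ρ - 2 := by
  have h1 := natDegree_dt_le W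
  rw [N1]
  refine (natDegree_sub_le_of_le (natDegree_sub_le_of_le ?_ ?_) ?_).trans (le_of_eq (by
    rw [max_self, max_self] : max (max (2 * ρ - 2) (2 * ρ - 2)) (2 * ρ - 2) = 2 * ρ - 2))
  · exact (natDegree_C_mul_le _ _).trans (by omega)
  · refine natDegree_mul_le.trans ?_
    have : (C (tau t₀ * Q1) * dt W - C (((m + 1 : ℕ) : ℂ[X]) * Q1 + tau t₀ * derivative Q1) *
        W).natDegree ≤ ρ - 2 :=
      (natDegree_sub_le_of_le ((natDegree_C_mul_le _ _).trans (h1.trans hW))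
        ((natDegree_C_mul_le _ _).trans hW)).trans (by rw [max_self])
    omega
  · rw [kc]
    refine (natDegree_C_mul_le _ _).trans (natDegree_mul_le.trans ?_)
    have : (C (tau t₀ * Q1) * W).natDegree ≤ ρ - 2 := (natDegree_C_mul_le _ _).trans hW
    omega

theorem natDegree_U_le {ρ r : ℕ} (hρ : g.natDegree = ρ) (hρ2 : 2 ≤ ρ)
    (hh : h.natDegree ≤ ρ - 1) (hhc : h.coeff (ρ - 1) = C (r : ℂ) * g.coeff ρ)
    (hs : ∀ j : ℕ, (j : ℂ) + s * r + ρ ≠ 0) {N U : ℂ[X][X]} (hN : N.natDegree ≤ 2 * ρ - 2)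
    (h1 : N = g * derivative U + kc s * h * U) : U.natDegree ≤ ρ - 1 := by
  by_contra hlt
  have h2 := deg_exact0 (s := s) hρ (by omega) hh hhc (le_refl U.natDegree)
  rw [← h1, coeff_eq_zero_of_natDegree_lt (by omega)] at h2
  have hG : g ≠ 0 := by
    rintro rfl
    rw [natDegree_zero] at hρ
    omega
  have hU : U ≠ 0 := by
    rintro rfl
    rw [natDegree_zero] at hlt
    omega
  have h3 : g.coeff ρ ≠ 0 := by
    rw [← hρ, coeff_natDegree]
    exact leadingCoeff_ne_zero.2 hG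
  have h4 : U.coeff U.natDegree ≠ 0 := by
    rw [coeff_natDegree]
    exact leadingCoeff_ne_zero.2 hU
  refine mul_ne_zero (mul_ne_zero h3 h4) (C_ne_zero.2 ?_) h2.symm
  obtain ⟨j, hj⟩ : ∃ j, U.natDegree = j + ρ := ⟨U.natDegree - ρ, by omega⟩
  have := hs j
  rw [hj]
  push_cast
  intro h0
  apply this
  linear_combination h0

/-- a separable fibre of the degree `ρ - 1` -/
theorem line_far {ρ r R : ℕ} (hG : G ≠ 0) (hGh : derivative G * g = G * h)
    (hGk : dt G * g = G * k)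
    (hr : G.natDegree = r) (hρ : g.natDegree = ρ) (hρ3 : 3 ≤ ρ)
    (hh : h.natDegree ≤ ρ - 1) (hhc : h.coeff (ρ - 1) = C (r : ℂ) * g.coeff ρ)
    (hs : s ≠ 0) (hs2 : ∀ j : ℕ, (j : ℂ) + s * r + ρ ≠ 0)
    {t₀ : ℂ} (hcop : IsCoprime (evt t₀ g) (evt t₀ h)) (hg0 : evt t₀ g ≠ 0)
    (hdeg : (evt t₀ g).natDegree = ρ - 1)
    (hhe : (evt t₀ h).natDegree ≤ ρ - 1 - 1)
    (hhec : (evt t₀ h).coeff (ρ - 1 - 1) = (R : ℂ) * (evt t₀ g).coeff (ρ - 1))
    (hs1 : ∀ j : ℕ, (j : ℂ) + s * R + (ρ - 1 : ℕ) ≠ 0)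
    (hs3 : ∀ m : ℕ, ((m + 1 : ℕ) : ℂ) * (r - R) +
      (G.coeff r).rootMultiplicity t₀ * (s * R + (ρ - 1 : ℕ)) ≠ 0)
    {m : ℕ} {Q1 : ℂ[X]} (hQ1 : Q1.eval t₀ ≠ 0) {W U : ℂ[X][X]} (hW : W.natDegree ≤ ρ - 2)
    (h1 : N1 g k s t₀ m Q1 W = g * derivative U + kc s * h * U) : evt t₀ W = 0 := by
  have hg : g ≠ 0 := by
    rintro rfl
    exact hg0 (map_zero _)
  obtain ⟨hk, hkc⟩ := lead_k hG hGk hρ hr
  have hU := natDegree_U_le hρ (by omega) hh hhc hs2
    (natDegree_N1_le hρ (by omega) hk t₀ m Q1 hW) h1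
  have h2 := congrArg (evt t₀) h1
  rw [evt_N1, evt_exact] at h2
  set ge := evt t₀ g with hge
  set w := evt t₀ W with hw
  set Y := evt t₀ U with hY
  obtain ⟨ζ, hζ, h3⟩ := sep_dvd hg0 hcop hs _ h2
  have hgl : ge.coeff (ρ - 1) ≠ 0 := by
    rw [← hdeg, coeff_natDegree]
    exact leadingCoeff_ne_zero.2 hg0
  have hwd : w.natDegree ≤ ρ - 2 := (natDegree_evt_le t₀ W).trans hW
  have hκ : ((m + 1 : ℕ) : ℂ) * Q1.eval t₀ ≠ 0 :=
    mul_ne_zero (Nat.cast_ne_zero.2 (Nat.succ_ne_zero m)) hQ1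
  suffices hz : ζ = 0 by
    rw [hz, derivative_zero, mul_zero, mul_zero, add_zero] at h3
    exact (mul_eq_zero.1 h3).resolve_left (C_ne_zero.2 hκ)
  by_contra hz
  have hζ0 : ζ.natDegree = 0 := by
    by_contra hne
    have h4 := deg_exact (g := ge) hdeg (by omega) hhe hhec (le_refl ζ.natDegree) s
    rw [← h3, coeff_C_mul, coeff_eq_zero_of_natDegree_lt (by omega), mul_zero] at h4
    have h5 : ζ.coeff ζ.natDegree ≠ 0 := by
      rw [coeff_natDegree]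
      exact leadingCoeff_ne_zero.2 hz
    exact mul_ne_zero (mul_ne_zero hgl h5) (hs1 _) h4.symm
  set z := ζ.coeff 0 with hzdef
  have hz0 : z ≠ 0 := by
    intro h0
    apply hz
    rw [eq_C_of_natDegree_eq_zero hζ0, ← hzdef, h0, C_0]
  -- first relation
  have r1 : ((m + 1 : ℕ) : ℂ) * Q1.eval t₀ * w.coeff (ρ - 2) =
      (s * R + (ρ - 1 : ℕ)) * (ge.coeff (ρ - 1) * z) := by
    have h4 := deg_exact (g := ge) hdeg (by omega) hhe hhec hζ0.le s
    rw [← h3, coeff_C_mul, add_zero, show ρ - 1 - 1 = ρ - 2 by omega, ← hzdef, Nat.cast_zero,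
      zero_add] at h4
    rw [h4]; ring
  -- second relation
  have r2 : Y.coeff (ρ - 1) = ge.coeff (ρ - 1) * z := by
    rw [hζ, eq_C_of_natDegree_eq_zero hζ0, coeff_mul_C]
  set A : ℂ[X] := g.coeff ρ with hA
  have hA0 : A ≠ 0 := by
    rw [hA, ← hρ, coeff_natDegree]
    exact leadingCoeff_ne_zero.2 hg
  set L : ℂ[X] := G.coeff r with hL
  have hL0 : L ≠ 0 := by
    rw [hL, ← hr, coeff_natDegree]
    exact leadingCoeff_ne_zero.2 hG
  obtain ⟨L1, hL1, hL1'⟩ := exists_eq_pow_rootMultiplicity_mul_and_not_dvd L hL0 t₀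
  set b := L.rootMultiplicity t₀ with hb
  rw [dvd_iff_isRoot, IsRoot] at hL1'
  have e0 : (N1 g k s t₀ m Q1 W).coeff (ρ + (ρ - 2)) =
      -(A * (tau t₀ * Q1 * derivative (W.coeff (ρ - 2)) -
        (((m + 1 : ℕ) : ℂ[X]) * Q1 + tau t₀ * derivative Q1) * W.coeff (ρ - 2))) -
      C s * (k.coeff ρ * (tau t₀ * Q1 * W.coeff (ρ - 2))) := by
    rw [N1, coeff_sub, coeff_sub, coeff_C_mul, coeff_eq_zero_of_natDegree_lt
      (show g.natDegree < ρ + (ρ - 2) by omega), mul_zero, zero_sub,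
      coeff_mul_add_eq_of_natDegree_le hρ.le ((natDegree_sub_le_of_le
        ((natDegree_C_mul_le _ _).trans ((natDegree_dt_le W).trans hW))
        ((natDegree_C_mul_le _ _).trans hW)).trans (by rw [max_self])), coeff_sub, coeff_C_mul,
      coeff_C_mul, coeff_dt, kc, coeff_C_mul,
      coeff_mul_add_eq_of_natDegree_le hk ((natDegree_C_mul_le _ _).trans hW), coeff_C_mul]
  have e1 := deg_exact0 (s := s) hρ (by omega) hh hhc hU
  rw [← h1, show ρ - 1 + (ρ - 1) = ρ + (ρ - 2) by omega, e0] at e1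
  have hXt : (X - C t₀ : ℂ[X]) ≠ 0 := X_sub_C_ne_zero t₀
  have e2 : (X - C t₀) * derivative L = (X - C t₀) ^ b * (C (b : ℂ) * L1 +
      (X - C t₀) * derivative L1) := by
    have := X_mul_der_pow t₀ b
    conv_lhs => rw [hL1]
    rw [derivative_mul]
    linear_combination L1 * this
  have e3 : L1 * ((X - C t₀) * k.coeff ρ) = (C (b : ℂ) * L1 + (X - C t₀) * derivative L1) * A := by
    refine mul_left_cancel₀ (pow_ne_zero b hXt) ?_
    have e4 : (X - C t₀) * (derivative L * A) = (X - C t₀) * (((X - C t₀) ^ b * L1) *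
        k.coeff ρ) := by
      rw [hkc]
      congr 2
    linear_combination -e4 + A * e2
  have e5 : A * (-(L1 * (tau t₀ * Q1 * derivative (W.coeff (ρ - 2)) -
        (((m + 1 : ℕ) : ℂ[X]) * Q1 + tau t₀ * derivative Q1) * W.coeff (ρ - 2))) -
      C s * (Q1 * (C (b : ℂ) * L1 + (X - C t₀) * derivative L1) * W.coeff (ρ - 2))) =
      A * (L1 * U.coeff (ρ - 1) * C (((ρ - 1 : ℕ) : ℂ) + s * r)) := by
    rw [tau] at e1 ⊢
    linear_combination L1 * e1 + C s * Q1 * W.coeff (ρ - 2) * e3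
  have e6 := congrArg (eval t₀) (mul_left_cancel₀ hA0 e5)
  have h0 : (tau t₀).eval t₀ = 0 := by rw [tau, eval_sub, eval_X, eval_C, sub_self]
  simp only [eval_sub, eval_neg, eval_mul, eval_add, eval_C, h0, zero_mul, zero_sub, add_zero,
    eval_natCast, eval_X, sub_self] at e6
  rw [← coeff_evt, ← coeff_evt, ← hw, ← hY, r2] at e6
  have e7 : Q1.eval t₀ * w.coeff (ρ - 2) * (((m + 1 : ℕ) : ℂ) - s * b) =
      (ge.coeff (ρ - 1) * z) * (((ρ - 1 : ℕ) : ℂ) + s * r) := by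
    refine mul_left_cancel₀ hL1' ?_
    linear_combination e6
  have e8 : (ge.coeff (ρ - 1) * z) * (s * (((m + 1 : ℕ) : ℂ) * (r - R) +
      b * (s * R + (ρ - 1 : ℕ)))) = 0 := by
    linear_combination (((m + 1 : ℕ) : ℂ) - s * b) * r1 - ((m + 1 : ℕ) : ℂ) * e7
  exact mul_ne_zero (mul_ne_zero hgl hz0) (mul_ne_zero hs (hs3 m)) e8

end Pool.Agent.Helper748.TP
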