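import Pool.Agent.helper748_tp.T4

set_option autoImplicit false
set_option linter.unusedSectionVars false
set_option linter.unusedVariables false

/-! # Removal of all denominators -/

namespace Pool.Agent.Helper748.TP

open Polynomial

variable {G g h k : ℂ[X][X]} {s : ℂ}

/-- The line `t = t₀` is good, where `G ∈ ℂ[t][x]` has the degree `r` in `x`, `g` is the product of
the different factors of `G`, of the degree `ρ` in `x`, and `∂_t G = (G / g) k`, `∂_x G = (G / g) h`.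
There is a point of the line at which the multiplicity `m` of `G` satisfies `m s ≠ 0, -1, -2, …`, and
one of the following holds.

* `g` has `ρ` different roots on the line;
* `g` has `ρ - 1` different roots on the line, one root goes to infinity; let `R` be the degree of `G`
  on the line, `r - R` the multiplicity at infinity, `b` the order at `t₀` of the leading coefficient
  of `G`, and `E = ρ - 1 + R s`; then `E ≠ 0, -1, -2, …` and `b E ≠ -(m + 1) (r - R)` for `m ≥ 0` (this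
  holds if `E > 0`);
* no root of `g` goes to infinity, and there is a vector field `(t - t₀) e(t) ∂_t + b ∂_x`,
  `e(t₀) ≠ 0`, with `((t - t₀) e ∂_t + b ∂_x) G = a G`, such that at the roots `c` of `g` on the line,
  of the multiplicity `μ` for `g` and `m` for `G`, the numbers `(∂_x b(t₀, c) / e(t₀)) (i + m s)`,
  `0 < i < μ`, are not positive integers. -/
def GoodLine (s : ℂ) (ρ r : ℕ) (G g h k : ℂ[X][X]) (t₀ : ℂ) : Prop :=
  (∃ c : ℂ, ∀ i : ℕ, (i : ℂ) + s * (evt t₀ G).rootMultiplicity c ≠ 0) ∧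
  (((evt t₀ g).Separable ∧ (evt t₀ g).natDegree = ρ) ∨
  ((evt t₀ g).Separable ∧ (evt t₀ g).natDegree = ρ - 1 ∧
    (∀ j : ℕ, (j : ℂ) + s * (evt t₀ G).natDegree + (ρ - 1 : ℕ) ≠ 0) ∧
    (∀ m : ℕ, ((m + 1 : ℕ) : ℂ) * (r - (evt t₀ G).natDegree) +
      (G.coeff r).rootMultiplicity t₀ * (s * (evt t₀ G).natDegree + (ρ - 1 : ℕ)) ≠ 0)) ∨
  ((evt t₀ g).natDegree = ρ ∧ ∃ (e : ℂ[X]) (a b : ℂ[X][X]), e.eval t₀ ≠ 0 ∧
    C (tau t₀ * e) * k + b * h = a * g ∧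
    ∀ (c : ℂ) (i p : ℕ), 0 < i → i < (evt t₀ g).rootMultiplicity c → 0 < p →
      (p : ℂ) * e.eval t₀ ≠
        (derivative (evt t₀ b)).eval c * (i + s * (evt t₀ G).rootMultiplicity c)))

theorem evt_G_ne {t₀ : ℂ} (h1 : ∃ c : ℂ, ∀ i : ℕ,
    (i : ℂ) + s * (evt t₀ G).rootMultiplicity c ≠ 0) : evt t₀ G ≠ 0 := by
  intro h0
  obtain ⟨c, hc⟩ := h1
  apply hc 0
  rw [h0, rootMultiplicity_zero]
  simp

theorem evt_rel (hGh : derivative G * g = G * h) (t₀ : ℂ) :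
    derivative (evt t₀ G) * evt t₀ g = evt t₀ G * evt t₀ h := by
  have := congrArg (evt t₀) hGh
  rwa [map_mul, map_mul, evt_der] at this

theorem nz_line {ρ r : ℕ} (hρ3 : 3 ≤ ρ) (hGh : derivative G * g = G * h) {t₀ : ℂ}
    (hl : GoodLine s ρ r G g h k t₀) : NZ s (evt t₀ g) (evt t₀ h) := by
  obtain ⟨h1, h2⟩ := hl
  have hg0 : evt t₀ g ≠ 0 := by
    intro h0
    rw [h0, natDegree_zero] at h2
    rcases h2 with ⟨-, h3⟩ | ⟨-, h3, -⟩ | ⟨h3, -⟩ <;> omega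
  obtain ⟨c, hc⟩ := h1
  exact nz_gh (evt_G_ne ⟨c, hc⟩) hg0 (evt_rel hGh t₀) hc

theorem evt_W {ρ r : ℕ} (hG : G ≠ 0) (hgG : g ∣ G) (hGh : derivative G * g = G * h)
    (hGk : dt G * g = G * k) (hr : G.natDegree = r) (hρ : g.natDegree = ρ) (hρ3 : 3 ≤ ρ)
    (hh : h.natDegree ≤ ρ - 1) (hhc : h.coeff (ρ - 1) = C (r : ℂ) * g.coeff ρ)
    (hs : s ≠ 0) (hs2 : ∀ j : ℕ, (j : ℂ) + s * r + ρ ≠ 0)
    {D : ℂ[X]} {α β : ℂ[X][X]} (hD : D ≠ 0) (hαβ : C D = α * g + β * cx g h s 0)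
    {t₀ : ℂ} (hl : GoodLine s ρ r G g h k t₀)
    {m : ℕ} {Q1 : ℂ[X]} (hQ1 : Q1.eval t₀ ≠ 0) {W U : ℂ[X][X]} (hW : W.natDegree ≤ ρ - 2)
    (h1 : N1 g k s t₀ m Q1 W = g * derivative U + kc s * h * U) : evt t₀ W = 0 := by
  have h2 := congrArg (evt t₀) h1
  rw [evt_N1, evt_exact] at h2
  have hwd : (evt t₀ W).natDegree ≤ ρ - 2 := (natDegree_evt_le t₀ W).trans hW
  have hκ : ((m + 1 : ℕ) : ℂ) * Q1.eval t₀ ≠ 0 :=
    mul_ne_zero (Nat.cast_ne_zero.2 (Nat.succ_ne_zero m)) hQ1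
  obtain ⟨hl0, hl⟩ := hl
  have hGe := evt_G_ne hl0
  have hrel := evt_rel hGh t₀
  have hdvd : evt t₀ g ∣ evt t₀ G := _root_.map_dvd (evt t₀) hgG
  have hR1 : 1 ≤ (evt t₀ g).natDegree := by
    rcases hl with ⟨-, h3⟩ | ⟨-, h3, -⟩ | ⟨h3, -⟩ <;> omega
  have hR2 : 1 ≤ (evt t₀ G).natDegree := hR1.trans (natDegree_le_of_dvd hdvd hGe)
  have hg0 : evt t₀ g ≠ 0 := by
    intro h0
    rw [h0, natDegree_zero] at hR1
    omega
  -- the full degree
  have hfull : (evt t₀ g).natDegree = ρ → (evt t₀ h).natDegree ≤ ρ - 1 ∧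
      (evt t₀ h).coeff (ρ - 1) = (r : ℂ) * (evt t₀ g).coeff ρ := by
    intro hd
    refine ⟨(natDegree_evt_le t₀ h).trans hh, ?_⟩
    rw [coeff_evt, hhc, eval_mul, eval_C, coeff_evt]
  rcases hl with ⟨hsep, hd⟩ | ⟨hsep, hd, hc1, hc2⟩ | ⟨hd, e, a, b, he, hab, hres⟩
  · obtain ⟨h3, h4⟩ := hfull hd
    obtain ⟨ζ, -, h5⟩ := sep_dvd hg0 (cop_gh hsep hdvd hGe hrel) hs _ h2
    exact zero_of_exact hg0 hd (by omega) h3 h4 hs2 hκ hwd h5
  · obtain ⟨h3, h4⟩ := lead_h hGe hrel hd (by omega) rfl hR2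
    exact line_far hG hGh hGk hr hρ hρ3 hh hhc hs hs2 (cop_gh hsep hdvd hGe hrel) hg0 hd h3 h4
      hc1 hc2 hQ1 hW h1
  · obtain ⟨h3, h4⟩ := hfull hd
    have h0 : (tau t₀).eval t₀ = 0 := by rw [tau, eval_sub, eval_X, eval_C, sub_self]
    have hab' : evt t₀ b * evt t₀ h = evt t₀ a * evt t₀ g := by
      have := congrArg (evt t₀) hab
      simpa only [map_add, map_mul, evt_C, eval_mul, h0, zero_mul, C_0, zero_add] using this
    -- the relation modulo `g`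
    set y : ℂ[X][X] := C e * U - C Q1 * (b * W) with hy
    set S : ℂ[X][X] := C (e * (tau t₀ ^ (m + 2) * Q1 ^ 2)) - C e * (C (tau t₀ * Q1) * dt W -
      C (((m + 1 : ℕ) : ℂ[X]) * Q1 + tau t₀ * derivative Q1) * W) - kc s * (C Q1 * W * a) -
      C e * derivative U with hS
    have e1 : kc s * h * y = g * S := by
      rw [hy, hS]
      rw [N1] at h1
      simp only [Polynomial.C_mul] at h1 hab ⊢
      linear_combination (-(C e)) * h1 - kc s * C Q1 * W * hab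
    have e3 : C D * y = g * (α * y + β * S) := by
      rw [hαβ, cx_zero]
      linear_combination β * e1
    obtain ⟨D1, hD1, hD1'⟩ := exists_eq_pow_rootMultiplicity_mul_and_not_dvd D hD t₀
    set n := D.rootMultiplicity t₀ with hn
    rw [dvd_iff_isRoot, IsRoot] at hD1'
    have e4 : C (tau t₀) ^ n ∣ g * (α * y + β * S) := by
      rw [← e3]
      conv_rhs => rw [hD1]
      rw [Polynomial.C_mul, C_pow, mul_assoc]
      exact dvd_mul_right _ _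
    obtain ⟨Z, hZ⟩ := dvd_of_prim hg0 n e4
    have e5 : C D1 * y = g * Z := by
      refine mul_left_cancel₀ (pow_ne_zero n (C_ne_zero.2 (tau_ne t₀))) ?_
      have : C D = C (tau t₀) ^ n * C D1 := by
        conv_lhs => rw [hD1]
        rw [Polynomial.C_mul, C_pow, tau]
      rw [← mul_assoc, ← this, e3, hZ]
      ring
    have e6 := congrArg (evt t₀) e5
    simp only [hy, map_mul, map_sub, evt_C] at e6
    refine line_log (ρ := ρ) (R := r) (g := evt t₀ g) (G := evt t₀ G) (h := evt t₀ h)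
      (w := evt t₀ W) (Y := evt t₀ U) (a := evt t₀ a)
      (b := evt t₀ b) (z := C (D1.eval t₀)⁻¹ * evt t₀ Z) (p := m + 1) (q₀ := Q1.eval t₀)
      (e₀ := e.eval t₀) hg0 hGe hdvd hrel hd (by omega) h3 h4 hs hs2
      (Nat.succ_pos m) hQ1 hab' hres hwd h2 ?_
    have e7 : C (D1.eval t₀)⁻¹ * C (D1.eval t₀) = (1 : ℂ[X]) := by
      rw [← Polynomial.C_mul, inv_mul_cancel₀ hD1', C_1]
    linear_combination C (D1.eval t₀)⁻¹ * e6 - (C (e.eval t₀) * evt t₀ U -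
      C (Q1.eval t₀) * (evt t₀ b * evt t₀ W)) * e7

/-- **Removal of all denominators.** -/
theorem no_poles {ρ r : ℕ} (hG : G ≠ 0) (hgG : g ∣ G) (hGh : derivative G * g = G * h)
    (hGk : dt G * g = G * k) (hr : G.natDegree = r) (hρ : g.natDegree = ρ) (hρ3 : 3 ≤ ρ)
    (hh : h.natDegree ≤ ρ - 1) (hhc : h.coeff (ρ - 1) = C (r : ℂ) * g.coeff ρ)
    (hs : s ≠ 0) (hs2 : ∀ j : ℕ, (j : ℂ) + s * r + ρ ≠ 0)
    {D : ℂ[X]} {α β : ℂ[X][X]} (hD : D ≠ 0) (hαβ : C D = α * g + β * cx g h s 0)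
    (hl : ∀ t₀, GoodLine s ρ r G g h k t₀) (n : ℕ) {Q : ℂ[X]} {W : ℂ[X][X]} (hQ : Q ≠ 0)
    (hn : Q.natDegree = n) (hW : W.natDegree ≤ ρ - 2) (h1 : Ex g h s 0 (NN g k s 0 Q W)) :
    ∃ W' U : ℂ[X][X], W'.natDegree ≤ ρ - 2 ∧
      g - g * dt W' - kc s * (k * W') = g * derivative U + kc s * h * U := by
  induction n generalizing Q W with
  | zero =>
    obtain ⟨c, rfl⟩ : ∃ c, Q = C c := ⟨_, eq_C_of_natDegree_eq_zero hn⟩
    have hc : c ≠ 0 := fun h0 => hQ (by rw [h0, C_0])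
    have h2 : (C (C c) : ℂ[X][X]) * kc c⁻¹ = 1 := by
      change kc c * kc c⁻¹ = 1
      rw [← kc_mul, mul_inv_cancel₀ hc, kc_one]
    have h3 : NN g k s 0 (C c) W = C (C c) ^ 2 * NN g k s 0 1 (kc c⁻¹ * W) := by
      rw [← NN_scale, mul_one, ← mul_assoc, h2, one_mul]
    rw [h3, ← C_pow] at h1
    obtain ⟨U, hU⟩ := (h1.cancel (pow_ne_zero 2 hQ)).poly fun t₀ => nz_line hρ3 hGh (hl t₀)
    refine ⟨kc c⁻¹ * W, U, (natDegree_C_mul_le _ _).trans hW, ?_⟩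
    rw [← hU, NN0, derivative_one, C_1, C_0]
    ring
  | succ n ih =>
    obtain ⟨t₀, ht⟩ : ∃ t₀, Q.IsRoot t₀ := by
      refine IsAlgClosed.exists_root Q ?_
      rw [degree_eq_natDegree hQ, hn]
      exact_mod_cast Nat.succ_ne_zero n
    obtain ⟨Q1, hQ1, hQ1'⟩ := exists_eq_pow_rootMultiplicity_mul_and_not_dvd Q hQ t₀
    rw [dvd_iff_isRoot, IsRoot] at hQ1'
    have hk : 0 < Q.rootMultiplicity t₀ := (rootMultiplicity_pos hQ).2 ht
    obtain ⟨m, hm⟩ : ∃ m, Q.rootMultiplicity t₀ = m + 1 := ⟨_, (Nat.succ_pred_eq_of_pos hk).symm⟩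
    rw [hm] at hQ1
    obtain ⟨U, hU⟩ := h1.poly fun t₀ => nz_line hρ3 hGh (hl t₀)
    rw [hQ1] at hU
    obtain ⟨U1, hU1⟩ := local_form (t₀ := t₀) (nz_line hρ3 hGh (hl t₀)) hU
    have h2 := evt_W hG hgG hGh hGk hr hρ hρ3 hh hhc hs hs2 hD hαβ (hl t₀) hQ1' hW hU1
    obtain ⟨W', rfl⟩ := tau_dvd h2
    obtain ⟨Q2, hQ2⟩ := dvd_iff_isRoot.2 ht
    have hQ20 : Q2 ≠ 0 := by
      rintro rfl
      rw [mul_zero] at hQ2
      exact hQ hQ2
    have h3 : NN g k s 0 Q (C (tau t₀) * W') = C (tau t₀) ^ 2 * NN g k s 0 Q2 W' := by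
      rw [← NN_scale]
      congr 1
    rw [h3, ← C_pow] at h1
    refine ih hQ20 ?_ ?_ (h1.cancel (pow_ne_zero 2 (tau_ne t₀)))
    · rw [hQ2, natDegree_mul (X_sub_C_ne_zero t₀) hQ20, natDegree_X_sub_C] at hn
      omega
    · by_cases hW0 : W' = 0
      · rw [hW0, natDegree_zero]; exact Nat.zero_le _
      · rwa [natDegree_C_mul (tau_ne t₀)] at hW

end Pool.Agent.Helper748.TP
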