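import Pool.Agent.helper748_tp.T5

set_option autoImplicit false
set_option linter.unusedSectionVars false
set_option linter.unusedVariables false

/-! # The degrees with respect to `t` and `x` -/

namespace Pool.Agent.Helper748.TP

open Polynomial

variable {G g h k : ℂ[X][X]} {s : ℂ}

/-- `p(λ, λ x)` as a polynomial in `λ` with coefficients in `ℂ[x]` -/
noncomputable def th : ℂ[X][X] →+* ℂ[X][X] :=
  eval₂RingHom (mapRingHom (C : ℂ →+* ℂ[X])) (X * C X)

theorem th_monomial (k : ℕ) (a : ℂ[X]) :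
    th (monomial k a) = a.map C * X ^ k * C (X ^ k) := by
  rw [th, coe_eval₂RingHom, eval₂_monomial, coe_mapRingHom, mul_pow, C_pow, mul_assoc]

theorem coeff_th (p : ℂ[X][X]) (n i : ℕ) :
    ((th p).coeff n).coeff i = if i ≤ n then (p.coeff i).coeff (n - i) else 0 := by
  induction p using Polynomial.induction_on' with
  | add p q hp hq =>
    rw [map_add, coeff_add, coeff_add, hp, hq, coeff_add]
    split_ifs
    · rw [coeff_add]
    · rw [add_zero]
  | monomial k a =>
    have e : (a.map C * X ^ k : ℂ[X][X]).coeff n = if k ≤ n then (a.map C).coeff (n - k) else 0 :=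
      coeff_mul_X_pow' _ _ _
    rw [th_monomial, coeff_mul_C, e, coeff_monomial]
    by_cases hk : k = i
    · subst hk
      by_cases hn : k ≤ n
      · rw [if_pos hn, if_pos hn, if_pos rfl, coeff_map, coeff_C_mul, coeff_X_pow_self, mul_one]
      · rw [if_neg hn, if_neg hn, zero_mul, coeff_zero]
    · rw [if_neg hk, coeff_zero, ite_self]
      split_ifs
      · rw [coeff_map, coeff_C_mul, coeff_X_pow, if_neg (Ne.symm hk), mul_zero]
      · rw [zero_mul, coeff_zero]

theorem th_der (p : ℂ[X][X]) (n : ℕ) :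
    (th (derivative p)).coeff n = derivative ((th p).coeff (n + 1)) := by
  ext1 i
  rw [coeff_th, coeff_derivative, coeff_derivative, coeff_th]
  by_cases h : i ≤ n
  · rw [if_pos h, if_pos (by omega), show n + 1 - (i + 1) = n - i by omega]
    have : ((i : ℂ[X]) + 1) = C ((i : ℂ) + 1) := by simp
    rw [this, coeff_mul_C]
  · rw [if_neg h, if_neg (by omega), zero_mul]

theorem th_dt (p : ℂ[X][X]) (n : ℕ) :
    (th (dt p)).coeff n + X * (th (derivative p)).coeff n =
      C ((n : ℂ) + 1) * (th p).coeff (n + 1) := by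
  ext1 i
  rw [coeff_add, coeff_th, coeff_dt, coeff_C_mul, coeff_th]
  have hc : ∀ j : ℕ, ((j : ℂ[X]) + 1) = C ((j : ℂ) + 1) := fun j => by simp
  rcases Nat.eq_zero_or_pos i with h0 | h0
  · rw [h0, if_pos (Nat.zero_le _), if_pos (Nat.zero_le _), coeff_X_mul_zero, add_zero,
      coeff_derivative, Nat.sub_zero, Nat.sub_zero]
    ring
  · obtain ⟨j, rfl⟩ : ∃ j, i = j + 1 := ⟨i - 1, by omega⟩
    rw [coeff_X_mul, coeff_th, coeff_derivative p j, hc, coeff_mul_C]
    by_cases h1 : j + 1 ≤ n
    · rw [if_pos h1, if_pos (by omega), if_pos (by omega), coeff_derivative,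
        show n - (j + 1) + 1 = n - j by omega, show n + 1 - (j + 1) = n - j by omega]
      have : (((n - (j + 1) : ℕ) : ℂ)) = n - (j + 1) := by
        rw [Nat.cast_sub h1]
        push_cast
        ring
      rw [this]
      ring
    · by_cases h2 : j ≤ n
      · have h3 : n = j := by omega
        subst h3
        rw [if_neg h1, if_pos h2, if_pos (le_refl _), zero_add, Nat.sub_self, Nat.sub_self]
        ring
      · rw [if_neg h1, if_neg h2, if_neg (by omega), zero_add, mul_zero]

theorem th_der_le {p : ℂ[X][X]} {m : ℕ} (h : (th p).natDegree ≤ m) :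
    (th (derivative p)).natDegree ≤ m - 1 := by
  rw [natDegree_le_iff_coeff_eq_zero]
  intro N hN
  rw [th_der, coeff_eq_zero_of_natDegree_lt (by omega), derivative_zero]

theorem th_dt_le {p : ℂ[X][X]} {m : ℕ} (h : (th p).natDegree ≤ m) :
    (th (dt p)).natDegree ≤ m - 1 := by
  rw [natDegree_le_iff_coeff_eq_zero]
  intro N hN
  have h1 := th_dt p N
  rw [coeff_eq_zero_of_natDegree_lt (lt_of_le_of_lt (th_der_le h) hN),
    coeff_eq_zero_of_natDegree_lt (show (th p).natDegree < N + 1 by omega), mul_zero, mul_zero,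
    add_zero] at h1
  exact h1

theorem th_kc (c : ℂ) (p : ℂ[X][X]) : th (kc c * p) = C (C c) * th p := by
  rw [map_mul, kc, th, coe_eval₂RingHom, eval₂_C, coe_mapRingHom, map_C]

theorem th_coeff_le {p : ℂ[X][X]} {m : ℕ} (h : p.natDegree ≤ m) (n : ℕ) :
    ((th p).coeff n).natDegree ≤ m := by
  rw [natDegree_le_iff_coeff_eq_zero]
  intro N hN
  rw [coeff_th, coeff_eq_zero_of_natDegree_lt (lt_of_le_of_lt h hN), coeff_zero, ite_self]

/-- The line at infinity. -/
theorem top_le {r ρ d δ : ℕ} (hδ : 1 ≤ δ) (hρ3 : 3 ≤ ρ) (hr1 : 1 ≤ r) (hs : s ≠ 0)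
    (hs2 : ∀ j : ℕ, (j : ℂ) + s * r + ρ ≠ 0) (hds : (d : ℂ) * s = -3)
    (hg : (th g).natDegree ≤ δ) (hh : (th h).natDegree ≤ δ - 1) (hk : (th k).natDegree ≤ δ - 1)
    {Gi gi hi : ℂ[X]} (hgi : (th g).coeff δ = gi) (hhi : (th h).coeff (δ - 1) = hi)
    (hki : (th k).coeff (δ - 1) = C (d : ℂ) * gi - X * hi)
    (hG0 : Gi ≠ 0) (hdvd : gi ∣ Gi) (hrel : derivative Gi * gi = Gi * hi)
    (hGr : Gi.natDegree = r) (hsep : gi.Separable) (hgd : gi.natDegree = ρ)
    (hc : ∃ c : ℂ, ∀ i : ℕ, (i : ℂ) + s * Gi.rootMultiplicity c ≠ 0)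
    {W U : ℂ[X][X]} (hW : W.natDegree ≤ ρ - 2)
    (h1 : g - g * dt W - kc s * (k * W) = g * derivative U + kc s * (h * U)) :
    (th W).natDegree ≤ 2 ∧ (th U).natDegree ≤ 2 := by
  have hgi0 : gi ≠ 0 := hsep.ne_zero
  obtain ⟨c, hc⟩ := hc
  have hNZ : NZ s gi hi := nz_gh hG0 hgi0 hrel hc
  obtain ⟨l1, l2⟩ := lead_h hG0 hrel hgd (by omega) hGr hr1
  have hT := congrArg th h1
  simp only [map_sub, map_add, th_kc] at hT
  simp only [map_mul] at hT
  -- the degree of `U`
  have hU : ∀ m, 2 ≤ m → (th W).natDegree ≤ m → (th U).natDegree ≤ m := by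
    intro m hm hWm
    by_contra hlt
    rw [not_le] at hlt
    obtain ⟨μ, hμ⟩ : ∃ μ, (th U).natDegree = μ := ⟨_, rfl⟩
    have hμ1 : m < μ := by omega
    have e := congrArg (fun p => p.coeff (δ + (μ - 1))) hT
    simp only [coeff_sub, coeff_add, coeff_C_mul] at e
    have a1 : (th g).coeff (δ + (μ - 1)) = 0 := coeff_eq_zero_of_natDegree_lt (by omega)
    have a2 : (th g * th (dt W)).coeff (δ + (μ - 1)) = 0 := by
      refine coeff_eq_zero_of_natDegree_lt (lt_of_le_of_lt natDegree_mul_le ?_)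
      have := th_dt_le hWm
      omega
    have a3 : (th k * th W).coeff (δ + (μ - 1)) = 0 := by
      refine coeff_eq_zero_of_natDegree_lt (lt_of_le_of_lt natDegree_mul_le ?_)
      omega
    have a4 : (th g * th (derivative U)).coeff (δ + (μ - 1)) =
        gi * derivative ((th U).coeff μ) := by
      rw [coeff_mul_add_eq_of_natDegree_le hg (th_der_le hμ.le), th_der,
        show μ - 1 + 1 = μ by omega, hgi]
    have a5 : (th h * th U).coeff (δ + (μ - 1)) = hi * (th U).coeff μ := by
      rw [show δ + (μ - 1) = (δ - 1) + μ by omega,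
        coeff_mul_add_eq_of_natDegree_le hh hμ.le, hhi]
    rw [a1, a2, a3, a4, a5, mul_zero, sub_zero, sub_zero] at e
    have h0 := hNZ _ e.symm
    rw [← hμ, coeff_natDegree, leadingCoeff_eq_zero] at h0
    rw [h0, natDegree_zero] at hμ
    omega
  have hW2 : (th W).natDegree ≤ 2 := by
    by_contra hlt
    rw [not_le] at hlt
    obtain ⟨m, hm⟩ : ∃ m, (th W).natDegree = m := ⟨_, rfl⟩
    have hm3 : 3 ≤ m := by omega
    have hUm := hU m (by omega) hm.le
    have e := congrArg (fun p => p.coeff (δ + (m - 1))) hT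
    simp only [coeff_sub, coeff_add, coeff_C_mul] at e
    set w := (th W).coeff m with hw
    set Y := (th U).coeff m with hY
    have a1 : (th g).coeff (δ + (m - 1)) = 0 := coeff_eq_zero_of_natDegree_lt (by omega)
    have b1 : (th (dt W)).coeff (m - 1) = C (m : ℂ) * w - X * derivative w := by
      have := th_dt W (m - 1)
      rw [th_der, show m - 1 + 1 = m by omega, Nat.cast_sub (by omega), ← hw] at this
      have e : (C ((m : ℂ) - (1 : ℕ) + 1) : ℂ[X]) = C (m : ℂ) := by
        congr 1
        push_cast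
        ring
      rw [e] at this
      linear_combination this
    have a2 : (th g * th (dt W)).coeff (δ + (m - 1)) =
        gi * (C (m : ℂ) * w - X * derivative w) := by
      rw [coeff_mul_add_eq_of_natDegree_le hg (th_dt_le hm.le), b1, hgi]
    have a3 : (th k * th W).coeff (δ + (m - 1)) = (C (d : ℂ) * gi - X * hi) * w := by
      rw [show δ + (m - 1) = (δ - 1) + m by omega,
        coeff_mul_add_eq_of_natDegree_le hk hm.le, hki]
    have a4 : (th g * th (derivative U)).coeff (δ + (m - 1)) = gi * derivative Y := by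
      rw [coeff_mul_add_eq_of_natDegree_le hg (th_der_le hUm), th_der,
        show m - 1 + 1 = m by omega, hgi]
    have a5 : (th h * th U).coeff (δ + (m - 1)) = hi * Y := by
      rw [show δ + (m - 1) = (δ - 1) + m by omega,
        coeff_mul_add_eq_of_natDegree_le hh hUm, hhi]
    rw [a1, a2, a3, a4, a5] at e
    have hwd : w.natDegree ≤ ρ - 2 := th_coeff_le hW m
    have e2 : (C s * C (d : ℂ) : ℂ[X]) = -3 := by
      rw [← Polynomial.C_mul, mul_comm, hds, C_neg]
      congr 1
    have hκ : (2 - m : ℂ) ≠ 0 := by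
      intro h0
      have : (m : ℂ) = (2 : ℕ) := by push_cast; linear_combination -h0
      have : m = 2 := by exact_mod_cast this
      omega
    have e4 : C (2 - (m : ℂ)) * (gi * w) = gi * derivative (Y - X * w) +
        C s * (hi * (Y - X * w)) := by
      rw [derivative_sub, derivative_mul, derivative_X, C_sub]
      have e3 : (C (2 : ℂ) : ℂ[X]) = 2 := map_ofNat C 2
      rw [e3]
      linear_combination e + gi * w * e2
    obtain ⟨ζ, -, e5⟩ := sep_dvd hgi0 (cop_gh hsep hdvd hG0 hrel) hs _ e4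
    have h0 := zero_of_exact hgi0 hgd (by omega) l1 l2 hs2 hκ hwd e5
    rw [hw, ← hm, coeff_natDegree, leadingCoeff_eq_zero] at h0
    rw [h0, natDegree_zero] at hm
    omega
  exact ⟨hW2, hU 2 le_rfl hW2⟩

end Pool.Agent.Helper748.TP
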