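import Pool.Agent.helper748_tp.T6

set_option autoImplicit false
set_option linter.unusedSectionVars false
set_option linter.unusedVariables false

/-! # The contradiction for linear vector fields -/

namespace Pool.Agent.Helper748.TP

open Polynomial

variable {G g h k : ℂ[X][X]} {s : ℂ}

theorem root_of_dvd {A v : ℂ[X]} (hA : A ≠ 0) (h : A ∣ derivative A * v) {c : ℂ}
    (hc : A.IsRoot c) : v.eval c = 0 := by
  obtain ⟨A1, hA1, hA1'⟩ := exists_eq_pow_rootMultiplicity_mul_and_not_dvd A hA c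
  have hk : 0 < A.rootMultiplicity c := (rootMultiplicity_pos hA).2 hc
  set k := A.rootMultiplicity c with hkdef
  rw [dvd_iff_isRoot, IsRoot] at hA1'
  obtain ⟨z, hz⟩ := h
  have hXc : (X - C c : ℂ[X]) ≠ 0 := X_sub_C_ne_zero c
  have h1 := X_mul_der_pow c k
  have h2 : (X - C c) * derivative A = (X - C c) ^ k * (C (k : ℂ) * A1 +
      (X - C c) * derivative A1) := by
    conv_lhs => rw [hA1]
    rw [derivative_mul]
    linear_combination A1 * h1
  have h3 : (X - C c) ^ k * ((C (k : ℂ) * A1 + (X - C c) * derivative A1) * v) =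
      (X - C c) ^ k * ((X - C c) * (A1 * z)) := by
    have h4 : (X - C c) * (derivative A * v) = (X - C c) * (((X - C c) ^ k * A1) * z) := by
      rw [hz]
      congr 2
    linear_combination h4 - v * h2
  have h5 := congrArg (eval c) (mul_left_cancel₀ (pow_ne_zero k hXc) h3)
  rw [eval_mul, eval_add, eval_mul, eval_C, eval_mul, eval_mul, eval_sub, eval_X, eval_C, sub_self,
    zero_mul, zero_mul, add_zero] at h5
  exact (mul_eq_zero.1 h5).resolve_left (mul_ne_zero (Nat.cast_ne_zero.2 hk.ne') hA1')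

theorem eq_zero_of_roots {A v : ℂ[X]} (hA : A ≠ 0) (h : A ∣ derivative A * v)
    (hn : v.natDegree < A.roots.toFinset.card) : v = 0 := by
  by_contra hv
  have h1 : A.roots.toFinset ⊆ v.roots.toFinset := by
    intro c hc
    rw [Multiset.mem_toFinset] at hc ⊢
    exact (mem_roots hv).2 (root_of_dvd hA h (isRoot_of_mem_roots hc))
  have h2 := (Finset.card_le_card h1).trans ((Multiset.toFinset_card_le _).trans (card_roots' v))
  omega

theorem coeff_of_th {p : ℂ[X][X]} {m : ℕ} (h : (th p).natDegree ≤ m) {i k : ℕ} (hik : m < i + k) :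
    (p.coeff i).coeff k = 0 := by
  have h1 := coeff_th p (i + k) i
  rw [if_pos (Nat.le_add_right i k), Nat.add_sub_cancel_left,
    coeff_eq_zero_of_natDegree_lt (lt_of_le_of_lt h hik), coeff_zero] at h1
  exact h1.symm

theorem natDegree_of_th {p : ℂ[X][X]} {m : ℕ} (h : (th p).natDegree ≤ m) : p.natDegree ≤ m := by
  rw [natDegree_le_iff_coeff_eq_zero]
  intro N hN
  ext1 k
  rw [coeff_of_th h (by omega), coeff_zero]

theorem coeff_natDegree_of_th {p : ℂ[X][X]} {m : ℕ} (h : (th p).natDegree ≤ m) (i : ℕ) :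
    (p.coeff i).natDegree ≤ m - i := by
  rw [natDegree_le_iff_coeff_eq_zero]
  intro N hN
  exact coeff_of_th h (by omega)

theorem dvd_lead {L A v κ : ℂ[X]} (hA : A ≠ 0) (h1 : derivative L * A = L * κ)
    (h2 : A ∣ κ * v) : L ∣ derivative L * v := by
  obtain ⟨z, hz⟩ := h2
  refine ⟨z, mul_left_cancel₀ hA ?_⟩
  linear_combination v * h1 + L * hz

/-- There is no linear vector field with these properties. -/
theorem no_linear {ρ r : ℕ} (hG : G ≠ 0) (hGk : dt G * g = G * k)
    (hr : G.natDegree = r) (hρ : g.natDegree = ρ) (hρ3 : 3 ≤ ρ)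
    (hh : h.natDegree ≤ ρ - 1) (hhc : h.coeff (ρ - 1) = C (r : ℂ) * g.coeff ρ)
    (hs : s ≠ 0) (hs2 : (2 : ℂ) + s * r ≠ 0) {D : ℂ[X]} {α β : ℂ[X][X]} (hD : D ≠ 0)
    (hαβ : C D = α * g + β * cx g h s 0)
    (hA : 3 ≤ (G.coeff r).roots.toFinset.card) {W U : ℂ[X][X]}
    (hW : (th W).natDegree ≤ 2) (hU : (th U).natDegree ≤ 2)
    (h1 : g - g * dt W - kc s * (k * W) = g * derivative U + kc s * h * U) :
    False := by
  have hg : g ≠ 0 := by
    rintro rfl
    rw [natDegree_zero] at hρ
    omega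
  obtain ⟨hk, hkc⟩ := lead_k hG hGk hρ hr
  set A := g.coeff ρ with hAdef
  have hA0 : A ≠ 0 := by
    rw [hAdef, ← hρ, coeff_natDegree]
    exact leadingCoeff_ne_zero.2 hg
  set L := G.coeff r with hLdef
  have hL0 : L ≠ 0 := by
    rw [hLdef, ← hr, coeff_natDegree]
    exact leadingCoeff_ne_zero.2 hG
  have hLd : 3 ≤ L.natDegree :=
    hA.trans ((Multiset.toFinset_card_le _).trans (card_roots' L))
  have hL' : derivative L ≠ 0 := by
    intro h0
    have := natDegree_eq_zero_of_derivative_eq_zero h0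
    omega
  have hk0 : k.coeff ρ ≠ 0 := by
    intro h0
    rw [h0, mul_zero] at hkc
    exact mul_ne_zero hL' hA0 hkc
  have hWx := natDegree_of_th hW
  have hUx := natDegree_of_th hU
  have hss : (C s : ℂ[X]) ≠ 0 := C_ne_zero.2 hs
  -- `w₂ = 0`
  have w2 : W.coeff 2 = 0 := by
    have h2 := congrArg (fun p => p.coeff (ρ + 2)) h1
    have a1 : g.coeff (ρ + 2) = 0 := coeff_eq_zero_of_natDegree_lt (by omega)
    have a2 : (g * dt W).coeff (ρ + 2) = A * derivative (W.coeff 2) := by
      rw [coeff_mul_add_eq_of_natDegree_le hρ.le ((natDegree_dt_le W).trans hWx), coeff_dt]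
    have a3 : (k * W).coeff (ρ + 2) = k.coeff ρ * W.coeff 2 := by
      rw [coeff_mul_add_eq_of_natDegree_le hk hWx]
    have a4 : (g * derivative U).coeff (ρ + 2) = 0 := by
      refine coeff_eq_zero_of_natDegree_lt (lt_of_le_of_lt natDegree_mul_le ?_)
      have := natDegree_derivative_le U
      omega
    have a5 : (h * U).coeff (ρ + 2) = 0 := by
      refine coeff_eq_zero_of_natDegree_lt (lt_of_le_of_lt natDegree_mul_le ?_)
      omega
    have a6 : derivative (W.coeff 2) = 0 :=
      derivative_of_natDegree_zero (Nat.le_zero.1 (coeff_natDegree_of_th hW 2))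
    simp only [coeff_sub, coeff_add, kc, coeff_C_mul, mul_assoc] at h2
    rw [a1, a2, a3, a4, a5, a6, mul_zero, mul_zero, sub_zero, zero_sub, add_zero,
      neg_eq_zero] at h2
    exact (mul_eq_zero.1 ((mul_eq_zero.1 h2).resolve_left hss)).resolve_left hk0
  have hWx1 : W.natDegree ≤ 1 := by
    rw [natDegree_le_iff_coeff_eq_zero]
    intro N hN
    rcases (show 2 ≤ N from hN).eq_or_lt with h0 | h0
    · rw [← h0, w2]
    · exact coeff_eq_zero_of_natDegree_lt (by omega)
  have k1 := deg_exact0 (s := s) hρ (by omega) hh hhc hUx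
  rw [show ρ - 1 + 2 = ρ + 1 by omega, ← h1] at k1
  have b1 : (g - g * dt W - kc s * (k * W)).coeff (ρ + 1) =
      -(A * derivative (W.coeff 1)) - C s * (k.coeff ρ * W.coeff 1) := by
    rw [kc, coeff_sub, coeff_sub, coeff_C_mul, coeff_eq_zero_of_natDegree_lt
      (show g.natDegree < ρ + 1 by omega),
      coeff_mul_add_eq_of_natDegree_le hρ.le ((natDegree_dt_le W).trans hWx1), coeff_dt,
      coeff_mul_add_eq_of_natDegree_le hk hWx1, zero_sub]
  rw [b1] at k1
  have hsi : (C s⁻¹ * C s : ℂ[X]) = 1 := by rw [← Polynomial.C_mul, inv_mul_cancel₀ hs, C_1]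
  have w1 : W.coeff 1 = 0 := by
    refine eq_zero_of_roots hL0 (dvd_lead hA0 hkc ⟨C s⁻¹ * (-derivative (W.coeff 1) -
      U.coeff 2 * C ((2 : ℕ) + s * r)), ?_⟩) (lt_of_le_of_lt (coeff_natDegree_of_th hW 1) (by omega))
    linear_combination (-(k.coeff ρ * W.coeff 1)) * hsi - C s⁻¹ * k1
  have u2 : U.coeff 2 = 0 := by
    rw [w1, derivative_zero, mul_zero, mul_zero, mul_zero, sub_zero, neg_zero] at k1
    refine (mul_eq_zero.1 ((mul_eq_zero.1 k1.symm).resolve_right ?_)).resolve_left hA0
    refine C_ne_zero.2 ?_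
    push_cast
    exact hs2
  have hWx0 : W.natDegree ≤ 0 := by
    rw [natDegree_le_iff_coeff_eq_zero]
    intro N hN
    rcases (show 1 ≤ N from hN).eq_or_lt with h0 | h0
    · rw [← h0, w1]
    · exact coeff_eq_zero_of_natDegree_lt (by omega)
  have hUx1 : U.natDegree ≤ 1 := by
    rw [natDegree_le_iff_coeff_eq_zero]
    intro N hN
    rcases (show 2 ≤ N from hN).eq_or_lt with h0 | h0
    · rw [← h0, u2]
    · exact coeff_eq_zero_of_natDegree_lt (by omega)
  have k0 := deg_exact0 (s := s) hρ (by omega) hh hhc hUx1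
  rw [show ρ - 1 + 1 = ρ by omega, ← h1] at k0
  have b0 : (g - g * dt W - kc s * (k * W)).coeff ρ =
      A - A * derivative (W.coeff 0) - C s * (k.coeff ρ * W.coeff 0) := by
    rw [kc, coeff_sub, coeff_sub, coeff_C_mul, ← hAdef]
    have e1 : (g * dt W).coeff ρ = A * derivative (W.coeff 0) := by
      have := coeff_mul_add_eq_of_natDegree_le hρ.le ((natDegree_dt_le W).trans hWx0)
      rwa [add_zero, coeff_dt] at this
    have e2 : (k * W).coeff ρ = k.coeff ρ * W.coeff 0 := by
      have := coeff_mul_add_eq_of_natDegree_le hk hWx0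
      rwa [add_zero] at this
    rw [e1, e2]
  rw [b0] at k0
  have w0 : W.coeff 0 = 0 := by
    refine eq_zero_of_roots hL0 (dvd_lead hA0 hkc ⟨C s⁻¹ * (1 - derivative (W.coeff 0) -
      U.coeff 1 * C ((1 : ℕ) + s * r)), ?_⟩) (lt_of_le_of_lt (coeff_natDegree_of_th hW 0) (by omega))
    linear_combination (-(k.coeff ρ * W.coeff 0)) * hsi - C s⁻¹ * k0
  have hW0 : W = 0 := by
    rw [eq_C_of_natDegree_le_zero hWx0, w0, C_0]
  rw [hW0, dt_zero, mul_zero, mul_zero, mul_zero, sub_zero, sub_zero] at h1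
  have h2 : C D * U = g * (α * U + β * (1 - derivative U)) := by
    rw [hαβ, cx_zero]
    linear_combination (-β) * h1
  have hU0 : U = 0 := by
    by_contra hU0
    set V := α * U + β * (1 - derivative U) with hV
    have hV0 : V ≠ 0 := by
      intro h0
      rw [h0, mul_zero] at h2
      exact mul_ne_zero (C_ne_zero.2 hD) hU0 h2
    have h3 := congrArg natDegree h2
    rw [natDegree_C_mul hD, natDegree_mul hg hV0] at h3
    omega
  rw [hU0, derivative_zero, mul_zero, mul_zero, add_zero] at h1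
  exact hg h1

end Pool.Agent.Helper748.TP
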