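import Pool.Agent.helper748_tp.T1

set_option autoImplicit false
set_option linter.unusedSectionVars false
set_option linter.unusedVariables false

/-! # `g` and `s h - K ∂_x g` have no common factor in `ℂ(t)[x]` -/

namespace Pool.Agent.Helper748.TP

open Polynomial

theorem cop_field {F : Type} [Field F] [CharZero F] {G g h : F[X]} {s : F} (hG : G ≠ 0)
    (hdvd : g ∣ G) (hGh : derivative G * g = G * h) (hsq : IsCoprime g (derivative g)) (K : ℕ)
    (hs : ∀ m : ℕ, s * (m + 1) - K ≠ 0) : IsCoprime g (C s * h - C (K : F) * derivative g) := by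
  have hg0 : g ≠ 0 := fun h0 => hG (by
    obtain ⟨z, hz⟩ := hdvd
    rw [hz, h0, zero_mul])
  refine isCoprime_of_irreducible_dvd (fun h0 => hg0 h0.1) fun z hz hzg hzq => ?_
  have hzp : Prime z := hz.prime
  have hz' : ¬ z ∣ derivative g := fun h0 => hz.not_isUnit (hsq.isUnit_of_dvd' hzg h0)
  obtain ⟨G1, hG1, hG1'⟩ :=
    (FiniteMultiplicity.of_not_isUnit hz.not_isUnit hG).exists_eq_pow_mul_and_not_dvd
  set M := multiplicity z G with hM
  have hM0 : M ≠ 0 := by
    intro h0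
    rw [h0, pow_zero, one_mul] at hG1
    exact hG1' (hG1 ▸ hzg.trans hdvd)
  obtain ⟨n, hn⟩ : ∃ n, M = n + 1 := ⟨M - 1, by omega⟩
  rw [hn] at hG1
  obtain ⟨g1, hg1⟩ := hzg
  have h1 : (C ((n : F) + 1) * derivative z * G1 + z * derivative G1) * g1 = G1 * h := by
    refine mul_left_cancel₀ (pow_ne_zero (n + 1) hz.ne_zero) ?_
    have h2 := hGh
    rw [hG1, derivative_mul, derivative_pow, Nat.add_sub_cancel] at h2
    have h3 : (C ((n + 1 : ℕ) : F)) = C ((n : F) + 1) := by push_cast; rfl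
    rw [h3] at h2
    conv_lhs at h2 => rw [hg1]
    rw [pow_succ] at h2 ⊢
    linear_combination h2
  have h2 : derivative g = derivative z * g1 + z * derivative g1 := by
    rw [hg1, derivative_mul]
  have h3 : z ∣ C (s * ((n : F) + 1) - K) * (derivative z * g1 * G1) := by
    have h4 : C (s * ((n : F) + 1) - K) * (derivative z * g1 * G1) =
        G1 * (C s * h - C (K : F) * derivative g) - z * (C s * derivative G1 * g1 -
          C (K : F) * derivative g1 * G1) := by
      rw [h2, C_sub, C_mul]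
      linear_combination C s * h1
    rw [h4]
    exact dvd_sub (dvd_mul_of_dvd_right hzq _) (dvd_mul_right _ _)
  rcases hzp.dvd_or_dvd h3 with h4 | h4
  · exact hz.not_isUnit (isUnit_of_dvd_unit h4 (isUnit_C.2 (isUnit_iff_ne_zero.2 (hs n))))
  · rcases hzp.dvd_or_dvd h4 with h5 | h5
    · apply hz'
      rw [h2]
      exact dvd_add h5 (dvd_mul_right _ _)
    · exact hG1' h5

/-- clearing denominators -/
theorem clear_den {p q : ℂ[X][X]}
    (h : IsCoprime (p.map (algebraMap ℂ[X] (FractionRing ℂ[X])))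
      (q.map (algebraMap ℂ[X] (FractionRing ℂ[X])))) :
    ∃ (D : ℂ[X]) (α β : ℂ[X][X]), D ≠ 0 ∧ C D = α * p + β * q := by
  obtain ⟨a, b, hab⟩ := h
  obtain ⟨d1, h1⟩ := IsLocalization.integerNormalization_map_to_map (nonZeroDivisors ℂ[X]) a
  obtain ⟨d2, h2⟩ := IsLocalization.integerNormalization_map_to_map (nonZeroDivisors ℂ[X]) b
  set a' := IsLocalization.integerNormalization (nonZeroDivisors ℂ[X]) a
  set b' := IsLocalization.integerNormalization (nonZeroDivisors ℂ[X]) b
  have hd1 : (d1 : ℂ[X]) ≠ 0 := nonZeroDivisors.ne_zero d1.2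
  have hd2 : (d2 : ℂ[X]) ≠ 0 := nonZeroDivisors.ne_zero d2.2
  refine ⟨d1 * d2, C (d2 : ℂ[X]) * a', C (d1 : ℂ[X]) * b', mul_ne_zero hd1 hd2, ?_⟩
  apply Polynomial.map_injective (algebraMap ℂ[X] (FractionRing ℂ[X]))
    (IsFractionRing.injective ℂ[X] (FractionRing ℂ[X]))
  rw [Polynomial.map_add, Polynomial.map_mul, Polynomial.map_mul, Polynomial.map_mul,
    Polynomial.map_mul, h1, h2, map_C, map_C, map_C, map_mul, C_mul]
  have e : ∀ (d : ℂ[X]) (x : (FractionRing ℂ[X])[X]),
      d • x = C (algebraMap ℂ[X] (FractionRing ℂ[X]) d) * x := by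
    intro d x
    rw [← smul_eq_C_mul, algebraMap_smul]
  rw [e, e]
  linear_combination (-(C (algebraMap ℂ[X] (FractionRing ℂ[X]) (d1 : ℂ[X])) *
    C (algebraMap ℂ[X] (FractionRing ℂ[X]) (d2 : ℂ[X])))) * hab

theorem cop_all {G g h : ℂ[X][X]} {s : ℂ} (hG : G ≠ 0) (hdvd : g ∣ G)
    (hGh : derivative G * g = G * h)
    (hsq : ∃ (D : ℂ[X]) (α β : ℂ[X][X]), D ≠ 0 ∧ C D = α * g + β * derivative g)
    (hs : ∀ K m : ℕ, s * ((m : ℂ) + 1) - K ≠ 0) (K : ℕ) :
    ∃ (D : ℂ[X]) (α β : ℂ[X][X]), D ≠ 0 ∧ C D = α * g + β * cx g h s K := by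
  apply clear_den
  set φ := algebraMap ℂ[X] (FractionRing ℂ[X]) with hφ
  have hinj : Function.Injective φ := IsFractionRing.injective ℂ[X] (FractionRing ℂ[X])
  have : CharZero (FractionRing ℂ[X]) := charZero_of_injective_algebraMap hinj
  have h1 : (cx g h s K).map φ = C (φ (C s)) * h.map φ - C ((K : FractionRing ℂ[X])) *
      derivative (g.map φ) := by
    rw [cx, kc, kc, Polynomial.map_sub, Polynomial.map_mul, Polynomial.map_mul, map_C, map_C,
      derivative_map]
    congr 3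
    rw [map_natCast, map_natCast]
  rw [h1]
  refine cop_field (G := G.map φ) ((Polynomial.map_ne_zero_iff hinj).2 hG)
    (Polynomial.map_dvd φ hdvd) ?_ ?_ K ?_
  · rw [derivative_map, ← Polynomial.map_mul, hGh, Polynomial.map_mul]
  · obtain ⟨D, α, β, hD, hαβ⟩ := hsq
    have hD' : φ D ≠ 0 := fun h0 => hD (hinj (by rw [h0, map_zero]))
    refine ⟨C (φ D)⁻¹ * α.map φ, C (φ D)⁻¹ * β.map φ, ?_⟩
    have h2 := congrArg (Polynomial.map φ) hαβ
    rw [Polynomial.map_add, Polynomial.map_mul, Polynomial.map_mul, map_C] at h2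
    have h3 : (C (φ D)⁻¹ * C (φ D) : (FractionRing ℂ[X])[X]) = 1 := by
      rw [← C_mul, inv_mul_cancel₀ hD', C_1]
    rw [derivative_map]
    linear_combination h3 - C (φ D)⁻¹ * h2
  · intro m h0
    have h2 : φ (C (s * ((m : ℂ) + 1) - K)) = 0 := by
      rw [← h0]
      simp [map_sub, map_mul]
    have h3 : (C (s * ((m : ℂ) + 1) - K) : ℂ[X]) = 0 := hinj (by rw [h2, map_zero])
    exact hs K m (C_eq_zero.1 h3)

end Pool.Agent.Helper748.TP
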