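import Pool.Agent.helper748_tp.T7
import Pool.Agent.helper748_tp.TC
import Pool.Agent.helper748_mc.FanThm

set_option autoImplicit false
set_option linter.unusedSectionVars false
set_option linter.unusedVariables false

/-! # Forms with a tame projection from a point -/

namespace Pool.Agent.Helper748.TP

open MvPolynomial Pool.Agent.Helper748.MC

/-- The substitution `x₀ = t`, `x₁ = 1`, `x₂ = x`, with values in `ℂ[t][x]`. -/
noncomputable def ch : MvPolynomial (Fin 3) ℂ →ₐ[ℂ] Polynomial (Polynomial ℂ) :=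
  aeval ![Polynomial.C Polynomial.X, 1, Polynomial.X]

/-- The substitution `x₀ = 1`, `x₁ = 0`, `x₂ = x`. -/
noncomputable def chInf : MvPolynomial (Fin 3) ℂ →ₐ[ℂ] Polynomial ℂ :=
  aeval ![1, 0, Polynomial.X]

theorem ch_C (c : ℂ) : ch (C c) = kc c := by
  rw [ch, aeval_C]; rfl

theorem ch_pderiv0 (p : MvPolynomial (Fin 3) ℂ) : ch (pderiv 0 p) = dt (ch p) := by
  induction p using MvPolynomial.induction_on with
  | C a => rw [pderiv_C, map_zero, ch_C, kc, dt_C, Polynomial.derivative_C, Polynomial.C_0]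
  | add p q hp hq => rw [map_add, map_add, map_add, hp, hq, dt_add]
  | mul_X p i hp =>
    rw [Derivation.leibniz, map_add, smul_eq_mul, smul_eq_mul, map_mul, map_mul, hp, map_mul,
      dt_mul]
    have h1 : ch (pderiv 0 (X i)) = dt (ch (X i)) := by
      fin_cases i
      · simp [ch, dt_C]
      · have : dt (1 : Polynomial (Polynomial ℂ)) = 0 := by
          rw [← Polynomial.C_1, dt_C, Polynomial.derivative_one, Polynomial.C_0]
        simp [ch, this]
      · simp [ch, dt_X]
    rw [h1]
    ring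

theorem ch_pderiv2 (p : MvPolynomial (Fin 3) ℂ) :
    ch (pderiv 2 p) = Polynomial.derivative (ch p) := by
  induction p using MvPolynomial.induction_on with
  | C a => rw [pderiv_C, map_zero, ch_C, kc, Polynomial.derivative_C]
  | add p q hp hq => rw [map_add, map_add, map_add, hp, hq, Polynomial.derivative_add]
  | mul_X p i hp =>
    rw [Derivation.leibniz, map_add, smul_eq_mul, smul_eq_mul, map_mul, map_mul, hp, map_mul,
      Polynomial.derivative_mul]
    have h1 : ch (pderiv 2 (X i)) = Polynomial.derivative (ch (X i)) := by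
      fin_cases i
      · simp [ch]
      · simp [ch]
      · simp [ch]
    rw [h1]
    ring

theorem chInf_pderiv2 (p : MvPolynomial (Fin 3) ℂ) :
    chInf (pderiv 2 p) = Polynomial.derivative (chInf p) := by
  induction p using MvPolynomial.induction_on with
  | C a => rw [pderiv_C, map_zero, chInf, aeval_C]; simp
  | add p q hp hq => rw [map_add, map_add, map_add, hp, hq, Polynomial.derivative_add]
  | mul_X p i hp =>
    rw [Derivation.leibniz, map_add, smul_eq_mul, smul_eq_mul, map_mul, map_mul, hp, map_mul,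
      Polynomial.derivative_mul]
    have h1 : chInf (pderiv 2 (X i)) = Polynomial.derivative (chInf (X i)) := by
      fin_cases i
      · simp [chInf]
      · simp [chInf]
      · simp [chInf]
    rw [h1]
    ring

theorem ch_monomial (m : Fin 3 →₀ ℕ) (c : ℂ) : ch (monomial m c) =
    Polynomial.monomial (m 2) (Polynomial.C c * Polynomial.X ^ m 0) := by
  rw [ch, aeval_monomial, Finsupp.prod_fintype _ _ (fun i => pow_zero _), Fin.prod_univ_three,
    ← Polynomial.C_mul_X_pow_eq_monomial, Polynomial.C_mul, Polynomial.C_pow]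
  simp only [Matrix.cons_val_zero, Matrix.cons_val_one, Matrix.cons_val_two, Matrix.head_cons,
    Matrix.tail_cons, one_pow, mul_one, Matrix.cons_val]
  rw [← mul_assoc]
  rfl

theorem chInf_monomial (m : Fin 3 →₀ ℕ) (c : ℂ) : chInf (monomial m c) =
    Polynomial.C c * (0 ^ m 1 * Polynomial.X ^ m 2) := by
  rw [chInf, aeval_monomial, Finsupp.prod_fintype _ _ (fun i => pow_zero _), Fin.prod_univ_three]
  simp only [Matrix.cons_val_zero, Matrix.cons_val_one, Matrix.cons_val_two, Matrix.head_cons,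
    Matrix.tail_cons, one_pow, one_mul, Matrix.cons_val]
  rfl

theorem th_ch_monomial (m : Fin 3 →₀ ℕ) (c : ℂ) : th (ch (monomial m c)) =
    Polynomial.C (Polynomial.C c * Polynomial.X ^ m 2) * Polynomial.X ^ (m 0 + m 2) := by
  rw [ch_monomial, th_monomial, Polynomial.map_mul, Polynomial.map_pow, Polynomial.map_C,
    Polynomial.map_X, Polynomial.C_mul, pow_add]
  ring

theorem th_ch {d : ℕ} {F : MvPolynomial (Fin 3) ℂ} (hF : F.IsHomogeneous d) :
    (th (ch F)).natDegree ≤ d ∧ (th (ch F)).coeff d = chInf F := by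
  have hm : ∀ m ∈ F.support, m 0 + m 1 + m 2 = d := by
    intro m hm
    have h1 := hF (mem_support_iff.1 hm)
    rw [← h1, ← Fin.sum_univ_three (fun i => m i), ← Finsupp.degree_eq_sum,
      Finsupp.degree_eq_weight_one]
    rfl
  have hs : F = ∑ m ∈ F.support, monomial m (coeff m F) := F.as_sum
  constructor
  · rw [hs, map_sum, map_sum]
    refine Polynomial.natDegree_sum_le_of_forall_le _ _ fun m hm' => ?_
    rw [th_ch_monomial]
    have := hm m hm'
    exact (Polynomial.natDegree_C_mul_X_pow_le _ _).trans (by omega)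
  · conv_lhs => rw [hs]
    conv_rhs => rw [hs]
    rw [map_sum, map_sum, map_sum, Polynomial.finset_sum_coeff]
    refine Finset.sum_congr rfl fun m hm' => ?_
    have := hm m hm'
    rw [th_ch_monomial, Polynomial.coeff_C_mul_X_pow, chInf_monomial]
    by_cases h1 : m 1 = 0
    · rw [if_pos (by omega), h1, pow_zero, one_mul]
    · rw [if_neg (by omega), zero_pow h1, zero_mul, mul_zero]

/-- `δ (p ^ n)` for a derivation `δ` -/
theorem pow_rule {δ : Polynomial (Polynomial ℂ) → Polynomial (Polynomial ℂ)} (h1 : δ 1 = 0)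
    (hm : ∀ p q, δ (p * q) = δ p * q + p * δ q) (p : Polynomial (Polynomial ℂ)) (n : ℕ) :
    p * δ (p ^ n) = (n : Polynomial (Polynomial ℂ)) * (p ^ n * δ p) := by
  induction n with
  | zero => rw [pow_zero, h1, Nat.cast_zero, zero_mul, mul_zero]
  | succ n ih =>
    rw [pow_succ, hm, Nat.cast_succ]
    linear_combination p * ih

/-- the change from the denominators `G ^ K` to the denominators `g ^ K'` -/
theorem change_den {δ : Polynomial (Polynomial ℂ) → Polynomial (Polynomial ℂ)} (h1 : δ 1 = 0)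
    (hm : ∀ p q, δ (p * q) = δ p * q + p * δ q) {G g h V : Polynomial (Polynomial ℂ)} {K K' : ℕ}
    (hG : G ≠ 0) (hGh : δ G * g = G * h) (hV : g ^ K' = G ^ K * V) :
    g * δ V = (K' : Polynomial (Polynomial ℂ)) * (δ g * V) -
      (K : Polynomial (Polynomial ℂ)) * (h * V) := by
  have e1 := pow_rule h1 hm g K'
  have e2 : g * δ (G ^ K) = (K : Polynomial (Polynomial ℂ)) * (G ^ K * h) := by
    refine mul_left_cancel₀ hG ?_
    linear_combination g * pow_rule h1 hm G K + (K : Polynomial (Polynomial ℂ)) * G ^ K * hGh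
  rw [hV, hm] at e1
  refine mul_left_cancel₀ (pow_ne_zero K hG) ?_
  linear_combination e1 - V * e2

theorem first_eq {G g h k P Q V : Polynomial (Polynomial ℂ)} {n : Polynomial (Polynomial ℂ)}
    {s : ℂ} {K K' : ℕ} (hn : n ≠ 0) (hG : G ≠ 0) (hGn : G = n * g) (hGt : dt G = n * k)
    (hGx : Polynomial.derivative G = n * h) (hV : g ^ K' = G ^ K * V)
    (h1 : G ^ (K + 1) = G * (dt P + Polynomial.derivative Q) +
      kc (s - K) * (dt G * P + Polynomial.derivative G * Q)) :
    NN g k s K' 1 (P * V) =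
      g * Polynomial.derivative (Q * V) + cx g h s K' * (Q * V) := by
  have d1 : dt 1 = 0 := by
    rw [← Polynomial.C_1, dt_C, Polynomial.derivative_one, Polynomial.C_0]
  have e1 := change_den (δ := dt) d1 dt_mul hG (by rw [hGt, hGn]; ring :
    dt G * g = G * k) hV
  have e2 := change_den (δ := fun p => Polynomial.derivative p) Polynomial.derivative_one
    (fun p q => Polynomial.derivative_mul) hG (by rw [hGx, hGn]; ring :
    Polynomial.derivative G * g = G * h) hV
  have e3 : G ^ K * g = g * (dt P + Polynomial.derivative Q) + kc (s - K) * (k * P + h * Q) := by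
    refine mul_left_cancel₀ hn ?_
    rw [hGt, hGx] at h1
    rw [pow_succ] at h1
    linear_combination h1 + (dt P + Polynomial.derivative Q - G ^ K) * hGn
  have e4 : kc (s - K) = kc s - (K : Polynomial (Polynomial ℂ)) := by
    rw [sub_eq_add_neg, kc_add, sub_eq_add_neg]
    congr 1
    simp [kc]
  rw [e4] at e3
  rw [NN, ct, cx, kc_nat, Polynomial.derivative_one, Polynomial.C_1, Polynomial.C_0, dt_mul,
    Polynomial.derivative_mul, show g ^ (K' + 1) = G ^ K * V * g by rw [pow_succ, hV]]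
  linear_combination V * e3 - P * e1 - Q * e2

/-- The theorem in `ℂ[t][x]`. -/
theorem core {G g h k n v P Q : Polynomial (Polynomial ℂ)} {Gi gi hi : Polynomial ℂ} {s : ℂ}
    {ρ r d δ e K : ℕ} (hn : n ≠ 0) (hG0 : G ≠ 0) (rG : G = n * g) (rt : dt G = n * k)
    (rx : Polynomial.derivative G = n * h) (hv : g ^ e = n * v)
    (hρ3 : 3 ≤ ρ) (hr : G.natDegree = r) (hρ : g.natDegree = ρ)
    (hsq : ∃ (D : Polynomial ℂ) (α β : Polynomial (Polynomial ℂ)), D ≠ 0 ∧
      Polynomial.C D = α * g + β * Polynomial.derivative g)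
    (hl : ∀ t₀ : ℂ, GoodLine s ρ r G g h k t₀)
    (hsep : gi.Separable) (hinf : gi.natDegree = ρ) (hinfr : Gi.natDegree = r)
    (hc : ∃ c : ℂ, ∀ i : ℕ, (i : ℂ) + s * Gi.rootMultiplicity c ≠ 0)
    (hs2 : ∀ j : ℕ, (j : ℂ) + s * r + ρ ≠ 0) (hs : s ≠ 0) (hds : (d : ℂ) * s = -3)
    (hss : ∀ K m : ℕ, s * ((m : ℂ) + 1) - K ≠ 0)
    (g1 : (th g).natDegree ≤ δ + 1) (g2 : (th g).coeff (δ + 1) = gi)
    (x1 : (th h).natDegree ≤ δ) (x2 : (th h).coeff δ = hi)
    (k1 : (th k).natDegree ≤ δ) (k2 : (th k).coeff δ = Polynomial.C (d : ℂ) * gi -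
      Polynomial.X * hi) (hdi : gi ∣ Gi) (hGi : Polynomial.derivative Gi * gi = Gi * hi)
    (h1 : G ^ (K + 1) = G * (dt P + Polynomial.derivative Q) +
      kc (s - K) * (dt G * P + Polynomial.derivative G * Q)) :
    (h.natDegree ≤ ρ - 1 ∧ h.coeff (ρ - 1) = Polynomial.C (r : ℂ) * g.coeff ρ) ∧
    (∃ (D : Polynomial ℂ) (α β : Polynomial (Polynomial ℂ)), D ≠ 0 ∧
      Polynomial.C D = α * g + β * cx g h s 0) ∧
    ∃ W U : Polynomial (Polynomial ℂ), (th W).natDegree ≤ 2 ∧ (th U).natDegree ≤ 2 ∧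
      g - g * dt W - kc s * (k * W) = g * Polynomial.derivative U + kc s * h * U := by
  have hg0 : g ≠ 0 := by
    intro h0
    rw [h0, Polynomial.natDegree_zero] at hρ
    omega
  have hGh : Polynomial.derivative G * g = G * h := by rw [rx, rG]; ring
  have hGk : dt G * g = G * k := by rw [rt, rG]; ring
  have hdvd : g ∣ G := ⟨n, by rw [rG]; ring⟩
  have hi : dt h * g - h * dt g =
      Polynomial.derivative k * g - k * Polynomial.derivative g := by
    have e1 : dt n * g = n * (k - dt g) := by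
      have := rt
      rw [rG, dt_mul] at this
      linear_combination this
    have e2 : Polynomial.derivative n * g = n * (h - Polynomial.derivative g) := by
      have := rx
      rw [rG, Polynomial.derivative_mul] at this
      linear_combination this
    have e3 : dt n * h + n * dt h = Polynomial.derivative n * k + n * Polynomial.derivative k := by
      have := dt_der G
      rw [rx, rt, dt_mul, Polynomial.derivative_mul] at this
      exact this
    refine mul_left_cancel₀ hn ?_
    linear_combination g * e3 - h * e1 + k * e2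
  have hr1 : 1 ≤ r := by
    have h1 := Polynomial.natDegree_le_of_dvd hdvd hG0
    omega
  obtain ⟨l1, l2⟩ := lead_h hG0 hGh hρ (by omega) hr hr1
  have hrC : ((r : ℕ) : Polynomial ℂ) = Polynomial.C (r : ℂ) := (map_natCast _ r).symm
  have l2' : h.coeff (ρ - 1) = Polynomial.C (r : ℂ) * g.coeff ρ := by
    rw [← hrC]
    exact l2
  have hcop := cop_all hG0 hdvd hGh hsq hss
  have hV0 : g ^ (e + 1) = G * v := by
    rw [pow_succ, hv, rG]
    ring
  obtain ⟨K', hV⟩ : ∃ K' : ℕ, g ^ K' = G ^ K * v ^ K :=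
    ⟨(e + 1) * K, by rw [pow_mul, ← mul_pow, hV0]⟩
  have h2 := first_eq hn hG0 rG rt rx hV h1
  have hEx : Ex g h s K' (NN g k s K' 1 (P * v ^ K)) :=
    ⟨1, Q * v ^ K, one_ne_zero, by rw [Polynomial.C_1, one_mul]; exact h2⟩
  have h10 : (1 : Polynomial ℂ) ≠ 0 := one_ne_zero
  obtain ⟨Q1, W1, hQ1, h3⟩ := red_all hi hg0 hcop K' h10 hEx
  obtain ⟨Q2, W2, hQ2, hW2, h4⟩ := red_deg hi hρ (by omega) l1 l2' hs2 W1.natDegree hQ1 le_rfl h3
  obtain ⟨D, α, β, hD, hαβ⟩ := hcop 0
  obtain ⟨W, U, hW, h5⟩ := no_poles hG0 hdvd hGh hGk hr hρ hρ3 l1 l2' hs hs2 hD hαβ hl _ hQ2 rfl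
    hW2 h4
  have hGi0 : Gi ≠ 0 := by
    intro h0
    rw [h0, Polynomial.natDegree_zero] at hinfr
    omega
  obtain ⟨h8, h9⟩ := top_le (d := d) (δ := δ + 1) (by omega) hρ3 hr1 hs hs2 hds g1
    (by rw [Nat.add_sub_cancel]; exact x1) (by rw [Nat.add_sub_cancel]; exact k1)
    g2 (by rw [Nat.add_sub_cancel]; exact x2) (by rw [Nat.add_sub_cancel]; exact k2) hGi0
    hdi hGi hinfr hsep hinf hc hW (by rw [← mul_assoc (kc s) h U]; exact h5)
  exact ⟨⟨l1, l2'⟩, ⟨D, α, β, hD, hαβ⟩, W, U, h8, h9, h5⟩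

end Pool.Agent.Helper748.TP
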