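import Pool.Agent.helper748_tp.T8

set_option autoImplicit false
set_option linter.unusedSectionVars false
set_option linter.unusedVariables false

/-! # Linear vector fields -/

namespace Pool.Agent.Helper748.TP

section

open Polynomial

variable {g h k : ℂ[X][X]} {s : ℂ}

/-- The part of degree two of `(W, U)` is a multiple of the Euler field. -/
theorem top_two {d δ : ℕ} (hδ : 1 ≤ δ) (hds : (d : ℂ) * s = -3)
    (hg : (th g).natDegree ≤ δ) (hh : (th h).natDegree ≤ δ - 1) (hk : (th k).natDegree ≤ δ - 1)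
    {gi hi : ℂ[X]} (hgi : (th g).coeff δ = gi) (hhi : (th h).coeff (δ - 1) = hi)
    (hki : (th k).coeff (δ - 1) = C (d : ℂ) * gi - X * hi) (hNZ : NZ s gi hi)
    {W U : ℂ[X][X]} (hW : (th W).natDegree ≤ 2) (hU : (th U).natDegree ≤ 2)
    (h1 : g - g * dt W - kc s * (k * W) = g * derivative U + kc s * (h * U)) :
    (th U).coeff 2 = X * (th W).coeff 2 := by
  have hT := congrArg th h1
  simp only [map_sub, map_add, th_kc] at hT
  simp only [map_mul] at hT
  have e := congrArg (fun p => p.coeff (δ + 1)) hT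
  simp only [coeff_sub, coeff_add, coeff_C_mul] at e
  set w := (th W).coeff 2 with hw
  set Y := (th U).coeff 2 with hY
  have a1 : (th g).coeff (δ + 1) = 0 := coeff_eq_zero_of_natDegree_lt (by omega)
  have b1 : (th (dt W)).coeff 1 = 2 * w - X * derivative w := by
    have := th_dt W 1
    rw [th_der] at this
    have e3 : (C (((1 : ℕ) : ℂ) + 1) : ℂ[X]) = 2 := by
      rw [Nat.cast_one, one_add_one_eq_two]
      exact map_ofNat C 2
    rw [e3] at this
    change (th (dt W)).coeff 1 + X * derivative w = 2 * w at this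
    linear_combination this
  have a2 : (th g * th (dt W)).coeff (δ + 1) = gi * (2 * w - X * derivative w) := by
    rw [coeff_mul_add_eq_of_natDegree_le hg (th_dt_le hW), b1, hgi]
  have a3 : (th k * th W).coeff (δ + 1) = (C (d : ℂ) * gi - X * hi) * w := by
    rw [show δ + 1 = (δ - 1) + 2 by omega, coeff_mul_add_eq_of_natDegree_le hk hW, hki]
  have a4 : (th g * th (derivative U)).coeff (δ + 1) = gi * derivative Y := by
    rw [coeff_mul_add_eq_of_natDegree_le hg (th_der_le hU), th_der, hgi]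
  have a5 : (th h * th U).coeff (δ + 1) = hi * Y := by
    rw [show δ + 1 = (δ - 1) + 2 by omega, coeff_mul_add_eq_of_natDegree_le hh hU, hhi]
  rw [a1, a2, a3, a4, a5] at e
  have e2 : (C s * C (d : ℂ) : ℂ[X]) = -3 := by
    rw [← Polynomial.C_mul, mul_comm, hds, C_neg]
    congr 1
  have e4 : gi * derivative (Y - X * w) + C s * (hi * (Y - X * w)) = 0 := by
    rw [derivative_sub, derivative_mul, derivative_X]
    linear_combination (-1 : ℂ[X]) * e - gi * w * e2
  exact sub_eq_zero.1 (hNZ _ e4)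

theorem expl {p : ℂ[X][X]} (h : (th p).natDegree ≤ 2) :
    p = (kc ((p.coeff 0).coeff 0) + kc ((p.coeff 0).coeff 1) * C X +
      kc ((p.coeff 0).coeff 2) * C X ^ 2) +
      (kc ((p.coeff 1).coeff 0) + kc ((p.coeff 1).coeff 1) * C X) * X +
      kc ((p.coeff 2).coeff 0) * X ^ 2 := by
  have h0 := as_sum_range_C_mul_X_pow' (p.coeff 0) (n := 3)
    (lt_of_le_of_lt (coeff_natDegree_of_th h 0) (by omega))
  have h1 := as_sum_range_C_mul_X_pow' (p.coeff 1) (n := 2)
    (lt_of_le_of_lt (coeff_natDegree_of_th h 1) (by omega))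
  have h2 := as_sum_range_C_mul_X_pow' (p.coeff 2) (n := 1)
    (lt_of_le_of_lt (coeff_natDegree_of_th h 2) (by omega))
  have h3 := as_sum_range_C_mul_X_pow' p (n := 3)
    (lt_of_le_of_lt (natDegree_of_th h) (by omega))
  rw [Finset.sum_range_succ, Finset.sum_range_succ, Finset.sum_range_succ, Finset.sum_range_zero,
    zero_add, pow_zero, mul_one, pow_one] at h0 h3
  rw [Finset.sum_range_succ, Finset.sum_range_succ, Finset.sum_range_zero, zero_add, pow_zero,
    mul_one, pow_one] at h1
  rw [Finset.sum_range_succ, Finset.sum_range_zero, zero_add, pow_zero, mul_one] at h2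
  conv_lhs => rw [h3, h0, h1, h2]
  simp only [kc, Polynomial.C_add, Polynomial.C_mul, Polynomial.C_pow]

/-- `(W, U)` comes from a linear vector field. -/
theorem linear_form {W U : ℂ[X][X]} (hW : (th W).natDegree ≤ 2) (hU : (th U).natDegree ≤ 2)
    (h2 : (th U).coeff 2 = X * (th W).coeff 2) :
    ∃ a₀ a₁ a₂ c₀ c₁ c₂ l₀ l₂ : ℂ,
      W = kc a₀ * C X + kc a₁ + kc a₂ * X + C X * (kc l₀ * C X + kc l₂ * X) ∧
      U = kc c₀ * C X + kc c₁ + kc c₂ * X + X * (kc l₀ * C X + kc l₂ * X) ∧
      dt W + derivative U = kc (a₀ + c₂) + 3 * (kc l₀ * C X + kc l₂ * X) := by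
  have hc : ∀ p : ℂ[X][X], ∀ i : ℕ, ((th p).coeff 2).coeff i =
      if i ≤ 2 then (p.coeff i).coeff (2 - i) else 0 := fun p i => coeff_th p 2 i
  have e0 := congrArg (fun p => p.coeff 0) h2
  have e1 := congrArg (fun p => p.coeff 1) h2
  have e2 := congrArg (fun p => p.coeff 2) h2
  have e3 := congrArg (fun p => p.coeff 3) h2
  simp only [coeff_X_mul, mul_coeff_zero, coeff_X_zero, zero_mul] at e0 e1 e2 e3
  rw [hc] at e0 e1 e2 e3
  rw [hc] at e1 e2 e3
  norm_num at e0 e1 e2 e3
  have hW' := expl hW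
  have hU' := expl hU
  rw [← e3] at hW'
  rw [e0, e1, e2] at hU'
  have k0 : kc 0 = 0 := by rw [kc, C_0, C_0]
  rw [k0, zero_mul, add_zero] at hW'
  rw [k0, zero_mul, add_zero] at hU'
  set a₁ := (W.coeff 0).coeff 0
  set a₀ := (W.coeff 0).coeff 1
  set l₀ := (W.coeff 0).coeff 2
  set a₂ := (W.coeff 1).coeff 0
  set l₂ := (W.coeff 1).coeff 1
  set c₁ := (U.coeff 0).coeff 0
  set c₀ := (U.coeff 0).coeff 1
  set c₂ := (U.coeff 1).coeff 0
  have dT : dt (C X : ℂ[X][X]) = 1 := by rw [dt_C, derivative_X, C_1]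
  have dk : ∀ c : ℂ, dt (kc c) = 0 := fun c => by rw [kc, dt_C, derivative_C, C_0]
  have dk' : ∀ c : ℂ, derivative (kc c) = 0 := fun c => by rw [kc, derivative_C]
  have hW2 : W = kc a₀ * C X + kc a₁ + kc a₂ * X + C X * (kc l₀ * C X + kc l₂ * X) := by
    linear_combination hW'
  have hU2 : U = kc c₀ * C X + kc c₁ + kc c₂ * X + X * (kc l₀ * C X + kc l₂ * X) := by
    linear_combination hU'
  refine ⟨a₀, a₁, a₂, c₀, c₁, c₂, l₀, l₂, hW2, hU2, ?_⟩
  have h3 := congrArg dt hW2
  have h4 := congrArg derivative hU2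
  simp only [dt_add, dt_mul, dk, dT, dt_X, zero_mul, mul_zero, zero_add, add_zero, mul_one,
    one_mul] at h3
  simp only [derivative_add, derivative_mul, dk', derivative_C, derivative_X, zero_mul, mul_zero,
    zero_add, add_zero, mul_one, one_mul] at h4
  rw [h3, h4, kc_add]
  ring

end

open MvPolynomial Pool.Agent.Helper748.MC

theorem ch_coeff {d : ℕ} {F : MvPolynomial (Fin 3) ℂ} (hF : F.IsHomogeneous d) (m : Fin 3 →₀ ℕ)
    (hm : m 0 + m 1 + m 2 = d) : ((ch F).coeff (m 2)).coeff (m 0) = coeff m F := by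
  have hm' : ∀ m ∈ F.support, m 0 + m 1 + m 2 = d := by
    intro m hm
    have h1 := hF (mem_support_iff.1 hm)
    rw [← h1, ← Fin.sum_univ_three (fun i => m i), ← Finsupp.degree_eq_sum,
      Finsupp.degree_eq_weight_one]
    rfl
  conv_lhs => rw [F.as_sum, map_sum, Polynomial.finset_sum_coeff, Polynomial.finset_sum_coeff]
  rw [Finset.sum_eq_single m]
  · rw [ch_monomial, Polynomial.coeff_monomial, if_pos rfl, Polynomial.coeff_C_mul_X_pow,
      if_pos rfl]
  · intro m' hs hne
    rw [ch_monomial, Polynomial.coeff_monomial]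
    split_ifs with h2
    · rw [Polynomial.coeff_C_mul_X_pow]
      split_ifs with h0
      · exfalso
        apply hne
        have := hm' m' hs
        ext i
        fin_cases i
        · exact h0.symm
        · change m' 1 = m 1
          omega
        · exact h2
      · rfl
    · rw [Polynomial.coeff_zero]
  · intro hs
    rw [notMem_support_iff.1 hs, map_zero, map_zero, Polynomial.coeff_zero, Polynomial.coeff_zero]

theorem ch_inj {d : ℕ} {F : MvPolynomial (Fin 3) ℂ} (hF : F.IsHomogeneous d) (h : ch F = 0) :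
    F = 0 := by
  ext m
  by_cases hm : coeff m F = 0
  · rw [hm, coeff_zero]
  · have h1 := hF hm
    have h2 : m 0 + m 1 + m 2 = d := by
      rw [← h1, ← Fin.sum_univ_three (fun i => m i), ← Finsupp.degree_eq_sum,
        Finsupp.degree_eq_weight_one]
      rfl
    rw [← ch_coeff hF m h2, h, Polynomial.coeff_zero, Polynomial.coeff_zero, coeff_zero]

end Pool.Agent.Helper748.TP
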